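import Mathlib
import Pool.Agent.H383.PZ.Defs

namespace Pool.Agent.H452R2.PO

/-- the optimal weight `k ^ (2k/(k+1))` -/
noncomputable def zw (k : ℕ) : ℝ := (k:ℝ) ^ (2 * (k:ℝ) / ((k:ℝ) + 1))

/-- primes in `[A, y]` -/
def OQ (A y : ℕ) : Finset ℕ := (Finset.Icc A y).filter Nat.Prime

end Pool.Agent.H452R2.PO
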