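import Pool.Agent.H383.PZ.L

/-! Task DK: summability of the squares of the divisor functions. -/

set_option autoImplicit false

namespace Pool.Agent.H452R2.PO

open Pool.Agent.H383.PZ ArithmeticFunction

private def D (k m : ℕ) : ℕ := (ArithmeticFunction.zeta ^ k : ArithmeticFunction ℕ) m

private lemma D_succ (k m : ℕ) : D (k + 1) m = ∑ x ∈ m.divisors, D k x := by
  unfold D
  rw [pow_succ, ArithmeticFunction.mul_zeta_apply]

private lemma D_zero_left (m : ℕ) : D 0 m = if m = 1 then 1 else 0 := by
  unfold D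
  rw [pow_zero, ArithmeticFunction.one_apply]

private lemma D_one (k : ℕ) : D k 1 = 1 := by
  induction k with
  | zero => simp [D_zero_left]
  | succ k ih => rw [D_succ]; simp [ih]

private lemma D_submul (b d e : ℕ) (hd : 0 < d) (he : 0 < e) : D b (d * e) ≤ D b d * D b e := by
  induction b generalizing d e with
  | zero =>
    simp only [D_zero_left]
    by_cases h : d * e = 1
    · obtain ⟨h1, h2⟩ := mul_eq_one.1 h
      simp [h1, h2]
    · simp [h]
  | succ b ih =>
    have hpos : ∀ x ∈ (d * e).divisors, 0 < x := fun x hx => Nat.pos_of_mem_divisors hx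
    have hmap : ∀ x ∈ (d * e).divisors, (Nat.gcd x d, x / Nat.gcd x d) ∈
        d.divisors ×ˢ e.divisors := by
      intro x hx
      have hx' := Nat.dvd_of_mem_divisors hx
      have hg : 0 < Nat.gcd x d := Nat.gcd_pos_of_pos_right _ hd
      rw [Finset.mem_product, Nat.mem_divisors, Nat.mem_divisors]
      refine ⟨⟨Nat.gcd_dvd_right _ _, hd.ne'⟩, ?_, he.ne'⟩
      have hcop : Nat.Coprime (x / Nat.gcd x d) (d / Nat.gcd x d) :=
        Nat.coprime_div_gcd_div_gcd hg
      apply hcop.dvd_of_dvd_mul_left
      obtain ⟨c, hc⟩ := hx'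
      have h1 : x = Nat.gcd x d * (x / Nat.gcd x d) := (Nat.mul_div_cancel' (Nat.gcd_dvd_left _ _)).symm
      have h2 : d = Nat.gcd x d * (d / Nat.gcd x d) := (Nat.mul_div_cancel' (Nat.gcd_dvd_right _ _)).symm
      refine ⟨c, ?_⟩
      apply Nat.eq_of_mul_eq_mul_left hg
      calc Nat.gcd x d * (d / Nat.gcd x d * e) = (Nat.gcd x d * (d / Nat.gcd x d)) * e := by ring
        _ = d * e := by rw [← h2]
        _ = x * c := hc
        _ = (Nat.gcd x d * (x / Nat.gcd x d)) * c := by rw [← h1]
        _ = Nat.gcd x d * (x / Nat.gcd x d * c) := by ring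
    have hinj : Set.InjOn (fun x => (Nat.gcd x d, x / Nat.gcd x d)) ((d * e).divisors : Set ℕ) := by
      intro x _ y _ hxy
      simp only [Prod.mk.injEq] at hxy
      have h1 : x = Nat.gcd x d * (x / Nat.gcd x d) := (Nat.mul_div_cancel' (Nat.gcd_dvd_left _ _)).symm
      have h2 : y = Nat.gcd y d * (y / Nat.gcd y d) := (Nat.mul_div_cancel' (Nat.gcd_dvd_left _ _)).symm
      rw [h1, h2, hxy.1, ← hxy.2, hxy.1]
    rw [D_succ, D_succ, D_succ]
    calc ∑ x ∈ (d * e).divisors, D b x
        ≤ ∑ x ∈ (d * e).divisors, D b (Nat.gcd x d) * D b (x / Nat.gcd x d) := by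
          apply Finset.sum_le_sum
          intro x hx
          have hg : 0 < Nat.gcd x d := Nat.gcd_pos_of_pos_right _ hd
          have h1 : x = Nat.gcd x d * (x / Nat.gcd x d) :=
            (Nat.mul_div_cancel' (Nat.gcd_dvd_left _ _)).symm
          have h2 : 0 < x / Nat.gcd x d :=
            Nat.div_pos (Nat.gcd_le_left _ (hpos x hx)) hg
          calc D b x = D b (Nat.gcd x d * (x / Nat.gcd x d)) := by rw [← h1]
            _ ≤ _ := ih _ _ hg h2
      _ = ∑ p ∈ (d * e).divisors.image (fun x => (Nat.gcd x d, x / Nat.gcd x d)),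
            D b p.1 * D b p.2 := by
          rw [Finset.sum_image hinj]
      _ ≤ ∑ p ∈ d.divisors ×ˢ e.divisors, D b p.1 * D b p.2 := by
          apply Finset.sum_le_sum_of_subset
          intro p hp
          rw [Finset.mem_image] at hp
          obtain ⟨x, hx, rfl⟩ := hp
          exact hmap x hx
      _ = (∑ x ∈ d.divisors, D b x) * ∑ x ∈ e.divisors, D b x := by
          rw [Finset.sum_product, Finset.sum_mul_sum]

private lemma D_mul_le (a b m : ℕ) (hm : 0 < m) : D a m * D b m ≤ D (a * b) m := by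
  induction a generalizing m with
  | zero =>
    rw [Nat.zero_mul, D_zero_left]
    by_cases h : m = 1
    · subst h
      simp [D_one]
    · simp [h]
  | succ a ih =>
    rw [D_succ, Finset.sum_mul]
    have h1 : D ((a + 1) * b) m = ∑ d ∈ m.divisors, D (a * b) d * D b (m / d) := by
      have : (a + 1) * b = a * b + b := by ring
      rw [this]
      unfold D
      rw [pow_add, ArithmeticFunction.mul_apply]
      exact Nat.sum_divisorsAntidiagonal (fun x y =>
        (ArithmeticFunction.zeta ^ (a * b) : ArithmeticFunction ℕ) x *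
          (ArithmeticFunction.zeta ^ b : ArithmeticFunction ℕ) y)
    rw [h1]
    apply Finset.sum_le_sum
    intro d hd
    have hd0 := Nat.pos_of_mem_divisors hd
    have hdm := Nat.dvd_of_mem_divisors hd
    have hq : 0 < m / d := Nat.div_pos (Nat.le_of_dvd hm hdm) hd0
    have h2 : D b m ≤ D b d * D b (m / d) := by
      have h3 := D_submul b d (m / d) hd0 hq
      rwa [Nat.mul_div_cancel' hdm] at h3
    calc D a d * D b m ≤ D a d * (D b d * D b (m / d)) := Nat.mul_le_mul_left _ h2
      _ = (D a d * D b d) * D b (m / d) := by ring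
      _ ≤ D (a * b) d * D b (m / d) := Nat.mul_le_mul_right _ (ih d hd0)

theorem dk_sq_le (k m : ℕ) : dk k m ^ 2 ≤ dk (k * k) m := by
  rcases Nat.eq_zero_or_pos m with rfl | hm
  · simp [dk]
  · have h := D_mul_le k k m hm
    unfold D at h
    unfold dk
    rw [sq]
    exact_mod_cast h

theorem dk_sq_summable (k : ℕ) {σ : ℝ} (hσ : 1 < σ) :
    Summable (fun m : ℕ => (dk k m) ^ 2 * (m : ℝ) ^ (-σ)) := by
  refine Summable.of_nonneg_of_le (fun m => by positivity) (fun m => ?_) (summable_dk (k * k) hσ)
  exact mul_le_mul_of_nonneg_right (dk_sq_le k m) (by positivity)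

end Pool.Agent.H452R2.PO
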