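import Mathlib
import Pool.Agent.H452R2.Om.O8

open Filter Topology
open Pool.Agent.H452R2.Om

namespace Pool.Agent.H452R2.PO

variable {ρ : ℝ}

/-- a finite trigonometric sum -/
noncomputable def TS (I : Finset ℕ) (b lam : ℕ → ℝ) (φ : ℝ) (n : ℕ) : ℝ :=
  ∑ m ∈ I, b m * Real.cos (2 * Real.pi * (n * lam m) - φ)

lemma TS_bdd {I : Finset ℕ} {b lam : ℕ → ℝ} {φ : ℝ} (hb : ∀ m, 0 ≤ b m) (n : ℕ) :
    |TS I b lam φ n| ≤ ∑ m ∈ I, b m := by
  unfold TS
  refine (Finset.abs_sum_le_sum_abs _ _).trans ?_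
  apply Finset.sum_le_sum
  intro m _
  rw [abs_mul, abs_of_nonneg (hb m)]
  have := Real.abs_cos_le_one (2 * Real.pi * ((n:ℝ) * lam m) - φ)
  have := hb m
  nlinarith

lemma L_TS (h0 : 0 ≤ ρ) (h1 : ρ < 1) (I S : Finset ℕ) (b lam : ℕ → ℝ) (φ : ℝ) :
    L ρ (fun n => Pr lam S n * TS I b lam φ n) = ∑ m ∈ I, b m * Ns ρ lam S φ (lam m) := by
  unfold Ns L
  simp only [← tsum_mul_left]
  rw [← Summable.tsum_finsetSum]
  · congr 1; funext n
    unfold TS
    rw [Finset.mul_sum, Finset.mul_sum]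
    apply Finset.sum_congr rfl
    intro m _
    ring
  · intro m _
    apply Summable.mul_left
    exact L_summable h0 h1 (B := 2 ^ S.card) (fun n => Pr_mul_bdd _ S
      (g := fun n : ℕ => Real.cos (2 * Real.pi * ((n:ℝ) * lam m) - φ)) (fun n => Real.abs_cos_le_one _) n)

open Classical in
/-- the core inequality -/
lemma core_fin (h0 : 0 ≤ ρ) (h1 : ρ < 1) {I S : Finset ℕ} {b lam : ℕ → ℝ} (hb : ∀ m, 0 ≤ b m) {φ : ℝ}
    (hφ : |Real.sin φ| ≤ Real.cos φ) (hSI : S ⊆ I) {B : ℝ} (hB : 0 ≤ B)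
    (hF : B + 1 ≤ (1/2) * Real.cos φ * ∑ m ∈ S, b m) (Ta Tb : ℝ) :
    Ds ρ lam S ≤ (2:ℝ) ^ S.card * L ρ (fun n : ℕ => if (n:ℝ) < Ta then |TS I b lam φ n| else 0) +
      (2:ℝ) ^ S.card * L ρ (fun n : ℕ => if Tb < n then |TS I b lam φ n| else 0) +
      (2:ℝ) ^ S.card * L ρ (fun n : ℕ => if n ∈ (Finset.range (⌊Tb⌋₊ + 1)).filter
        (fun n : ℕ => Ta ≤ n ∧ B ≤ TS I b lam φ n) then |TS I b lam φ n| else 0) := by
  set e : ℕ → ℝ := TS I b lam φ with he
  set K2 : ℝ := (2:ℝ) ^ S.card with hK2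
  have hK20 : 0 < K2 := by positivity
  set P : ℕ → ℝ := Pr lam S with hP
  have hP0 : ∀ n, 0 ≤ P n := Pr_nonneg lam S
  have hP2 : ∀ n, P n ≤ K2 := Pr_le lam S
  set AM : ℝ := ∑ m ∈ I, b m with hAM
  have hAM0 : 0 ≤ AM := Finset.sum_nonneg (fun m _ => hb m)
  have hUb : ∀ n, |e n| ≤ AM := fun n => TS_bdd hb n
  have hA : ∀ n : ℕ, |e n| ≤ AM * (n + 1) := by
    intro n
    have h1 := hUb n
    have hn : (0:ℝ) ≤ n := Nat.cast_nonneg n
    nlinarith
  -- (1) the main term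
  have hmain : (B + 1) * Ds ρ lam S ≤ L ρ (fun n => P n * e n) := by
    have e2 : L ρ (fun n => P n * e n) = ∑ m ∈ I, b m * Ns ρ lam S φ (lam m) := L_TS h0 h1 I S b lam φ
    rw [e2]
    have hD0 : 0 ≤ Ds ρ lam S := L_nonneg h0 hP0
    calc (B + 1) * Ds ρ lam S ≤ ((1/2) * Real.cos φ * ∑ m ∈ S, b m) * Ds ρ lam S := mul_le_mul_of_nonneg_right hF hD0
      _ = ∑ m ∈ S, b m * ((1/2) * Real.cos φ * Ds ρ lam S) := by
          rw [Finset.mul_sum, Finset.sum_mul]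
          apply Finset.sum_congr rfl
          intro m _; ring
      _ ≤ ∑ m ∈ S, b m * Ns ρ lam S φ (lam m) := by
          apply Finset.sum_le_sum
          intro m hm
          exact mul_le_mul_of_nonneg_left (Ns_main h0 h1 lam hφ hm) (hb m)
      _ ≤ _ := by
          apply Finset.sum_le_sum_of_subset_of_nonneg hSI
          intro m _ _
          exact mul_nonneg (hb m) (Ns_nonneg h0 h1 lam S hφ _)
  -- the set of large values
  set G : Finset ℕ := (Finset.range (⌊Tb⌋₊ + 1)).filter (fun n : ℕ => Ta ≤ n ∧ B ≤ e n) with hG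
  -- (3) the upper bound
  have hup : L ρ (fun n => P n * e n) ≤ B * Ds ρ lam S + K2 * L ρ (fun n : ℕ => if (n:ℝ) < Ta then |e n| else 0) +
      K2 * L ρ (fun n : ℕ => if Tb < n then |e n| else 0) + K2 * L ρ (fun n : ℕ => if n ∈ G then |e n| else 0) := by
    have hf1 : ∀ n : ℕ, |B * P n| ≤ (B * K2) * (n + 1) := by
      intro n
      rw [abs_mul, abs_of_nonneg hB, abs_of_nonneg (hP0 n)]
      have h3 := mul_le_mul_of_nonneg_left (hP2 n) hB
      have hn : (0:ℝ) ≤ n := Nat.cast_nonneg n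
      have h4 : 0 ≤ B * K2 := by positivity
      nlinarith
    have hf2 : ∀ n : ℕ, |K2 * (if (n:ℝ) < Ta then |e n| else 0)| ≤ (K2 * AM) * (n + 1) := by
      intro n
      rw [abs_mul, abs_of_pos hK20, mul_assoc]
      apply mul_le_mul_of_nonneg_left _ hK20.le
      split_ifs
      · rw [abs_abs]; exact hA n
      · rw [abs_zero]; positivity
    have hf3 : ∀ n : ℕ, |K2 * (if Tb < (n:ℝ) then |e n| else 0)| ≤ (K2 * AM) * (n + 1) := by
      intro n
      rw [abs_mul, abs_of_pos hK20, mul_assoc]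
      apply mul_le_mul_of_nonneg_left _ hK20.le
      split_ifs
      · rw [abs_abs]; exact hA n
      · rw [abs_zero]; positivity
    have hf4 : ∀ n : ℕ, |K2 * (if n ∈ G then |e n| else 0)| ≤ (K2 * AM) * (n + 1) := by
      intro n
      rw [abs_mul, abs_of_pos hK20, mul_assoc]
      apply mul_le_mul_of_nonneg_left _ hK20.le
      split_ifs
      · rw [abs_abs]; exact hA n
      · rw [abs_zero]; positivity
    have e1 : L ρ (fun n : ℕ => ((B * P n + K2 * (if (n:ℝ) < Ta then |e n| else 0)) +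
        K2 * (if Tb < (n:ℝ) then |e n| else 0)) + K2 * (if n ∈ G then |e n| else 0)) =
        B * Ds ρ lam S + K2 * L ρ (fun n : ℕ => if (n:ℝ) < Ta then |e n| else 0) +
        K2 * L ρ (fun n : ℕ => if Tb < (n:ℝ) then |e n| else 0) + K2 * L ρ (fun n : ℕ => if n ∈ G then |e n| else 0) := by
      rw [L_add1 (B := B * K2 + K2 * AM + K2 * AM) (B' := K2 * AM) h0 h1 _ hf4,
        L_add1 (B := B * K2 + K2 * AM) (B' := K2 * AM) h0 h1 _ hf3, L_add1 h0 h1 hf1 hf2, L_smul, L_smul, L_smul, L_smul]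
      · rfl
      · intro n
        refine (abs_add_le _ _).trans ?_
        rw [add_mul]
        exact add_le_add (hf1 n) (hf2 n)
      · intro n
        refine (abs_add_le _ _).trans ?_
        rw [add_mul]
        apply add_le_add _ (hf3 n)
        refine (abs_add_le _ _).trans ?_
        rw [add_mul]
        exact add_le_add (hf1 n) (hf2 n)
    rw [← e1]
    apply L_mono1 h0 h1 (B := K2 * AM) (B' := B * K2 + K2 * AM + K2 * AM + K2 * AM)
    · intro n
      rw [abs_mul, abs_of_nonneg (hP0 n), mul_assoc]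
      exact mul_le_mul (hP2 n) (hA n) (abs_nonneg _) hK20.le
    · intro n
      refine (abs_add_le _ _).trans ?_
      rw [add_mul]
      apply add_le_add _ (hf4 n)
      refine (abs_add_le _ _).trans ?_
      rw [add_mul]
      apply add_le_add _ (hf3 n)
      refine (abs_add_le _ _).trans ?_
      rw [add_mul]
      exact add_le_add (hf1 n) (hf2 n)
    · intro n
      have hz1 : 0 ≤ B * P n := mul_nonneg hB (hP0 n)
      have p1 : 0 ≤ K2 * (if (n:ℝ) < Ta then |e n| else 0) := by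
        apply mul_nonneg hK20.le
        split_ifs
        · exact abs_nonneg _
        · exact le_rfl
      have p2 : 0 ≤ K2 * (if Tb < (n:ℝ) then |e n| else 0) := by
        apply mul_nonneg hK20.le
        split_ifs
        · exact abs_nonneg _
        · exact le_rfl
      have p3 : 0 ≤ K2 * (if n ∈ G then |e n| else 0) := by
        apply mul_nonneg hK20.le
        split_ifs
        · exact abs_nonneg _
        · exact le_rfl
      have h5 : P n * e n ≤ K2 * |e n| := by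
        calc P n * e n ≤ P n * |e n| := mul_le_mul_of_nonneg_left (le_abs_self _) (hP0 n)
          _ ≤ _ := mul_le_mul_of_nonneg_right (hP2 n) (abs_nonneg _)
      by_cases c1' : (n:ℝ) < Ta
      · rw [if_pos c1'] at p1 ⊢
        linarith
      · by_cases c2 : Tb < (n:ℝ)
        · rw [if_pos c2] at p2 ⊢
          linarith
        · by_cases c3 : n ∈ G
          · rw [if_pos c3] at p3 ⊢
            linarith
          · push Not at c1' c2
            have c4 : e n < B := by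
              by_contra hcon
              push Not at hcon
              apply c3
              rw [hG, Finset.mem_filter, Finset.mem_range]
              refine ⟨?_, c1', hcon⟩
              have : n ≤ ⌊Tb⌋₊ := Nat.le_floor c2
              omega
            have h6 : P n * e n ≤ B * P n := by
              rw [mul_comm]
              exact mul_le_mul_of_nonneg_right c4.le (hP0 n)
            linarith
  linarith

/-- the tail -/
lemma L_tail3 {T Z A₀ A₁ A₃ : ℝ} (hT : 1 ≤ T) {e : ℕ → ℝ} (hA : ∀ n : ℕ, |e n| ≤ A₀ * (n + 1)) (hA1 : 1 ≤ A₁)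
    (hA3 : A₃ ≤ T ^ (1/4:ℝ))
    (hmean : ∀ N : ℕ, ∑ n ∈ Finset.range N, |e n| ≤ A₁ * N + A₃) :
    L (Real.exp (-(1/T))) (fun n : ℕ => if Z < n then |e n| else 0) ≤ Real.exp (-(Z/(2*T))) * (5 * A₁ * T ^ (1/4:ℝ)) := by
  have hT0 : 0 < T := by linarith
  have hA10 : 0 ≤ A₁ := by linarith
  set ρ := Real.exp (-(1/T)) with hρ
  set σ := Real.exp (-(1/(2*T))) with hσ
  have hσ0 : 0 ≤ σ := (Real.exp_pos _).le
  have hσ1 : σ < 1 := by
    rw [hσ, Real.exp_lt_one_iff]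
    have : 0 < 1/(2*T) := by positivity
    linarith
  have hterm : ∀ n : ℕ, v ρ n * (if Z < n then |e n| else 0) ≤ Real.exp (-(Z/(2*T))) * (v σ n * |e n|) := by
    intro n
    split_ifs with h
    · have h2 : v ρ n ≤ Real.exp (-(Z/(2*T))) * v σ n := by
        unfold v
        have h3 : ρ^n ≤ Real.exp (-(Z/(2*T))) * σ^n := by
          rw [hρ, hσ, ← Real.exp_nat_mul, ← Real.exp_nat_mul, ← Real.exp_add]
          apply Real.exp_le_exp.mpr
          have e1 : (n:ℝ) * -(1/T) = -(n/(2*T)) + (n:ℝ) * -(1/(2*T)) := by field_simp; ring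
          rw [e1]
          have e2 : Z/(2*T) ≤ n/(2*T) := by
            apply div_le_div_of_nonneg_right h.le (by positivity)
          linarith
        calc vc n * ρ^n ≤ vc n * (Real.exp (-(Z/(2*T))) * σ^n) := mul_le_mul_of_nonneg_left h3 (vc_nonneg n)
          _ = _ := by ring
      calc v ρ n * |e n| ≤ (Real.exp (-(Z/(2*T))) * v σ n) * |e n| := mul_le_mul_of_nonneg_right h2 (abs_nonneg _)
        _ = _ := by ring
    · rw [mul_zero]
      have := v_nonneg hσ0 n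
      positivity
  have hs : Summable (fun n => v σ n * |e n|) := L_summable1 hσ0 hσ1 (B := A₀) (fun n => by rw [abs_abs]; exact hA n)
  have hs0 : Summable (fun n : ℕ => v ρ n * (if Z < n then |e n| else 0)) := by
    apply Summable.of_nonneg_of_le _ hterm (hs.mul_left _)
    intro n
    apply mul_nonneg (v_nonneg (Real.exp_pos _).le n)
    split_ifs
    · exact abs_nonneg _
    · exact le_rfl
  unfold L
  refine (hs0.tsum_le_tsum hterm (hs.mul_left _)).trans ?_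
  rw [tsum_mul_left]
  apply mul_le_mul_of_nonneg_left _ (Real.exp_pos _).le
  have h1 := L_abel hσ0 hσ1 (g := fun n => |e n|) (fun n => abs_nonneg _) hA10 hmean
  have h2 := L1_le (T := 2 * T) (by linarith)
  rw [show 1/(2*T) = 1/(2*T) from rfl, ← hσ] at h2
  have h3 : (2 * T) ^ (1/4:ℝ) ≤ (3/2) * T ^ (1/4:ℝ) := by
    rw [Real.mul_rpow (by norm_num) hT0.le]
    apply mul_le_mul_of_nonneg_right _ (by positivity)
    calc (2:ℝ) ^ (1/4:ℝ) ≤ ((3/2:ℝ)^4) ^ (1/4:ℝ) := Real.rpow_le_rpow (by norm_num) (by norm_num) (by norm_num)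
      _ = 3/2 := by rw [← Real.rpow_natCast, ← Real.rpow_mul (by norm_num)]; norm_num
  have h4 : 0 < T ^ (1/4:ℝ) := by positivity
  have h5 : A₁ * L σ (fun _ => 1) ≤ A₁ * (3 * T ^ (1/4:ℝ)) := mul_le_mul_of_nonneg_left (by linarith) hA10
  have h6 : T ^ (1/4:ℝ) ≤ A₁ * T ^ (1/4:ℝ) := by nlinarith
  unfold L at h1 h5
  linarith

/-- the initial segment -/
lemma ini_bound3 (h0 : 0 ≤ ρ) (h1 : ρ < 1) {e : ℕ → ℝ} {A₁ A₃ Ta : ℝ} (hA10 : 0 < A₁) (hTa1 : 1 ≤ Ta)
    (hmean : ∀ N : ℕ, ∑ n ∈ Finset.range N, |e n| ≤ A₁ * N + A₃) :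
    L ρ (fun n : ℕ => if (n:ℝ) < Ta then |e n| else 0) ≤ A₁ * (12 * Ta ^ (1/4:ℝ)) + A₃ := by
    have hTa0 : 0 < Ta := by linarith
    set N₁ : ℕ := ⌈Ta⌉₊ with hN₁
    have hN₁1 : 1 ≤ N₁ := by
      have : (1:ℝ) ≤ N₁ := hTa1.trans (Nat.le_ceil _)
      exact_mod_cast this
    have hN₁2 : (N₁:ℝ) ≤ 2 * Ta := by
      have := Nat.ceil_lt_add_one hTa0.le
      rw [← hN₁] at this
      linarith
    have e1 : L ρ (fun n : ℕ => if (n:ℝ) < Ta then |e n| else 0) =
        ∑ n ∈ Finset.range N₁, v ρ n * (if (n:ℝ) < Ta then |e n| else 0) := by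
      unfold L
      apply tsum_eq_sum
      intro n hn
      rw [Finset.mem_range, not_lt] at hn
      have : ¬ ((n:ℝ) < Ta) := by
        push Not
        exact Nat.ceil_le.mp hn
      simp only []
      rw [if_neg this, mul_zero]
    rw [e1]
    have e2 : ∑ n ∈ Finset.range N₁, v ρ n * (if (n:ℝ) < Ta then |e n| else 0) ≤ ∑ n ∈ Finset.range N₁, v ρ n * |e n| := by
      apply Finset.sum_le_sum
      intro n _
      apply mul_le_mul_of_nonneg_left _ (v_nonneg h0 n)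
      split_ifs
      · exact le_rfl
      · exact abs_nonneg _
    refine e2.trans ?_
    have e3 := abel_fin (v_anti h0 h1.le) (v_nonneg h0) hmean N₁
    rw [v_zero, mul_one] at e3
    refine e3.trans ?_
    have e4 : ∑ n ∈ Finset.range N₁, v ρ n ≤ ∑ n ∈ Finset.range N₁, vc n := by
      apply Finset.sum_le_sum
      intro n _
      unfold v
      have h5 : ρ^n ≤ 1 := pow_le_one₀ h0 h1.le
      have := vc_nonneg n
      nlinarith
    have e5 := vc_sum_le hN₁1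
    have e6 : (N₁:ℝ) ^ (1/4:ℝ) ≤ 2 * Ta ^ (1/4:ℝ) := by
      calc (N₁:ℝ) ^ (1/4:ℝ) ≤ (2 * Ta) ^ (1/4:ℝ) := Real.rpow_le_rpow (Nat.cast_nonneg _) hN₁2 (by norm_num)
        _ = 2 ^ (1/4:ℝ) * Ta ^ (1/4:ℝ) := Real.mul_rpow (by norm_num) (by positivity)
        _ ≤ 2 * Ta ^ (1/4:ℝ) := by
            apply mul_le_mul_of_nonneg_right _ (by positivity)
            calc (2:ℝ) ^ (1/4:ℝ) ≤ 2 ^ (1:ℝ) := Real.rpow_le_rpow_of_exponent_le (by norm_num) (by norm_num)
              _ = 2 := Real.rpow_one 2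
    have e7 : ∑ n ∈ Finset.range N₁, v ρ n ≤ 12 * Ta ^ (1/4:ℝ) := by linarith
    have := mul_le_mul_of_nonneg_left e7 hA10.le
    linarith

/-- the set of large values -/
lemma G_bound3 (h0 : 0 ≤ ρ) (h1 : ρ < 1) {e : ℕ → ℝ} {A₂ A₃ Ta Tb : ℝ} (hA2 : 1 ≤ A₂) (hTa0 : 0 < Ta) (hTb : 1 ≤ Tb)
    (hA3 : A₃ ≤ Tb)
    (hS2 : ∀ N : ℕ, ∑ n ∈ Finset.range N, (e n)^2 ≤ A₂ * N + A₃) {G : Finset ℕ} (hGa : ∀ n ∈ G, Ta ≤ n)
    (hGb : G ⊆ Finset.range (⌊Tb⌋₊ + 1)) [DecidablePred (· ∈ G)] :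
    L ρ (fun n : ℕ => if n ∈ G then |e n| else 0) ≤ 6 * Ta ^ (-(3/4):ℝ) * √((G.card:ℝ) * (3 * A₂ * Tb)) := by
    have e1 : L ρ (fun n : ℕ => if n ∈ G then |e n| else 0) = ∑ n ∈ G, v ρ n * |e n| := by
      unfold L
      rw [tsum_eq_sum (s := G)]
      · apply Finset.sum_congr rfl
        intro n hn
        show v ρ n * (if n ∈ G then |e n| else 0) = _
        rw [if_pos hn]
      · intro n hn
        show v ρ n * (if n ∈ G then |e n| else 0) = _
        rw [if_neg hn, mul_zero]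
    rw [e1]
    have e2 : ∑ n ∈ G, v ρ n * |e n| ≤ ∑ n ∈ G, (6 * Ta ^ (-(3/4):ℝ)) * |e n| := by
      apply Finset.sum_le_sum
      intro n hn
      have hnTa := hGa n hn
      apply mul_le_mul_of_nonneg_right _ (abs_nonneg _)
      have h5 : v ρ n ≤ vc n := by
        unfold v
        have h5 : ρ^n ≤ 1 := pow_le_one₀ h0 h1.le
        have := vc_nonneg n
        nlinarith
      refine h5.trans ((vc_le n).trans ?_)
      apply mul_le_mul_of_nonneg_left _ (by norm_num)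
      apply Real.rpow_le_rpow_of_nonpos hTa0 _ (by norm_num)
      linarith [hnTa]
    refine e2.trans ?_
    rw [← Finset.mul_sum]
    apply mul_le_mul_of_nonneg_left _ (by positivity)
    apply Real.le_sqrt_of_sq_le
    have hcs := sq_sum_le_card_mul_sum_sq (s := G) (f := fun n => |e n|)
    refine hcs.trans ?_
    apply mul_le_mul_of_nonneg_left _ (Nat.cast_nonneg _)
    have e3 : ∑ n ∈ G, |e n|^2 ≤ ∑ n ∈ Finset.range (⌊Tb⌋₊ + 1), (e n)^2 := by
      simp only [sq_abs]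
      apply Finset.sum_le_sum_of_subset_of_nonneg hGb
      intro n _ _; exact sq_nonneg _
    refine e3.trans ((hS2 _).trans ?_)
    have h6 : (⌊Tb⌋₊ : ℝ) ≤ Tb := Nat.floor_le (by linarith)
    push_cast
    nlinarith

lemma sizes3 {T A₁ A₃ L₁ kk K2 Ta Tb κ : ℝ} (hT1' : 1 ≤ T) (hA11 : 1 ≤ A₁) (hA3 : A₃ ≤ T ^ (1/16:ℝ)) (hA30 : 0 ≤ A₃)
    (hL10 : 0 < L₁) (hkk1 : 1 ≤ kk)
    (hL1d : L₁ = Real.log (200 * A₁ + 1)) (hκc : κ ≤ 1/16)
    (hK20 : 0 < K2) (hK2e : K2 ≤ Real.exp kk) (h2K : K2 ≤ T ^ κ) (hTa : Ta = T * Real.exp (-((4 * (1 + L₁)) * kk)))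
    (hTb : Tb = (2 * (1 + L₁)) * kk * T) :
    K2 * (A₁ * (12 * Ta ^ (1/4:ℝ)) + A₃) ≤ T ^ (1/4:ℝ) * (12/200 + T ^ (-(1/8):ℝ)) ∧
    K2 * (Real.exp (-(Tb/(2*T))) * (5 * A₁ * T ^ (1/4:ℝ))) ≤ T ^ (1/4:ℝ) * (5/200) := by
  have hT0 : 0 < T := by linarith
  have hA10 : 0 < A₁ := by linarith
  have hexpL : Real.exp (-L₁) * (200 * A₁ + 1) = 1 := by
    rw [hL1d, Real.exp_neg, Real.exp_log (by linarith)]
    have : 200 * A₁ + 1 ≠ 0 := by linarith
    field_simp
  have hexpK : Real.exp (-(L₁ * kk)) ≤ Real.exp (-L₁) := by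
    apply Real.exp_le_exp.mpr
    nlinarith
  have e3 : A₁ * Real.exp (-L₁) ≤ 1/200 := by nlinarith [Real.exp_pos (-L₁)]
  have e4 : A₁ * Real.exp (-(L₁ * kk)) ≤ 1/200 := le_trans (mul_le_mul_of_nonneg_left hexpK hA10.le) e3
  have hT4 : 0 < T ^ (1/4:ℝ) := by positivity
  have hTa4 : Ta ^ (1/4:ℝ) = T ^ (1/4:ℝ) * Real.exp (-((1 + L₁) * kk)) := by
    rw [hTa, Real.mul_rpow hT0.le (Real.exp_pos _).le, ← Real.exp_mul]
    congr 2; ring
  have hq : K2 * Real.exp (-((1 + L₁) * kk)) ≤ Real.exp (-(L₁ * kk)) := by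
    calc K2 * Real.exp (-((1 + L₁) * kk)) ≤ Real.exp kk * Real.exp (-((1 + L₁) * kk)) :=
          mul_le_mul_of_nonneg_right hK2e (Real.exp_pos _).le
      _ = _ := by rw [← Real.exp_add]; congr 1; ring
  constructor
  · have p1 : K2 * (A₁ * (12 * Ta ^ (1/4:ℝ))) ≤ T ^ (1/4:ℝ) * (12/200) := by
      rw [hTa4]
      calc K2 * (A₁ * (12 * (T ^ (1/4:ℝ) * Real.exp (-((1 + L₁) * kk))))) =
          T ^ (1/4:ℝ) * (12 * (A₁ * (K2 * Real.exp (-((1 + L₁) * kk))))) := by ring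
        _ ≤ T ^ (1/4:ℝ) * (12 * (A₁ * Real.exp (-(L₁ * kk)))) := by gcongr
        _ ≤ T ^ (1/4:ℝ) * (12 * (1/200)) := by gcongr
        _ = _ := by ring
    have p2 : K2 * A₃ ≤ T ^ (1/4:ℝ) * T ^ (-(1/8):ℝ) := by
      calc K2 * A₃ ≤ T ^ (1/16:ℝ) * T ^ (1/16:ℝ) := by
            apply mul_le_mul _ hA3 hA30 (by positivity)
            exact h2K.trans (Real.rpow_le_rpow_of_exponent_le hT1' hκc)
        _ = T ^ (1/4:ℝ) * T ^ (-(1/8):ℝ) := by rw [← Real.rpow_add hT0, ← Real.rpow_add hT0]; norm_num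
    linarith
  · have hTbT : Tb/(2*T) = (1 + L₁) * kk := by rw [hTb]; field_simp
    rw [hTbT]
    calc K2 * (Real.exp (-((1 + L₁) * kk)) * (5 * A₁ * T ^ (1/4:ℝ))) =
        T ^ (1/4:ℝ) * (5 * (A₁ * (K2 * Real.exp (-((1 + L₁) * kk))))) := by ring
      _ ≤ T ^ (1/4:ℝ) * (5 * (A₁ * Real.exp (-(L₁ * kk)))) := by gcongr
      _ ≤ T ^ (1/4:ℝ) * (5 * (1/200)) := by gcongr
      _ = _ := by ring

open Classical in
/-- **many large values of a finite trigonometric sum with nonnegative coefficients** -/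
theorem count_fin {φ : ℝ} (hφ : |Real.sin φ| ≤ Real.cos φ) {A₂ : ℝ} (hA2 : 1 ≤ A₂) :
    ∃ κ lam0 : ℝ, 0 < κ ∧ 1 ≤ lam0 ∧ ∃ T0 : ℝ, 1 ≤ T0 ∧ ∀ T : ℝ, T0 ≤ T → ∀ (I S : Finset ℕ) (b lam : ℕ → ℝ),
      (∀ m, 0 ≤ b m) → S ⊆ I → (S.card : ℝ) ≤ κ * Real.log T →
      (∀ N : ℕ, ∑ n ∈ Finset.range N, (TS I b lam φ n)^2 ≤ A₂ * N + T ^ (1/16:ℝ)) → ∀ B : ℝ, 0 ≤ B →
      B + 1 ≤ (1/2) * Real.cos φ * ∑ m ∈ S, b m →
      T * Real.exp (-(lam0 * (S.card + 1))) ≤
        (((Finset.range (⌊lam0 * (S.card + 1) * T⌋₊ + 1)).filter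
          (fun n : ℕ => T ^ (1/2:ℝ) ≤ n ∧ B ≤ TS I b lam φ n)).card : ℝ) := by
  set L₁ : ℝ := Real.log (200 * A₂ + 1) with hL1d
  have hA20 : 0 < A₂ := by linarith
  have hL10 : 0 < L₁ := Real.log_pos (by linarith)
  set lam1 : ℝ := 4 * (1 + L₁) with hlam1
  set lam2 : ℝ := 2 * (1 + L₁) with hlam2
  have hlam10 : 0 < lam1 := by positivity
  have hlam20 : 0 < lam2 := by positivity
  have hlam21 : 1 ≤ lam2 := by rw [hlam2]; linarith
  set L₂ : ℝ := Real.log (1296 * A₂ * lam2 + 1) with hL2d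
  have hL20 : 0 < L₂ := Real.log_pos (by have : 0 < 1296 * A₂ * lam2 := by positivity
                                         linarith)
  set lam0 : ℝ := (3/2) * lam1 + 3 + L₂ + lam2 with hlam0
  set κ : ℝ := min (1/16) (1/(4*lam1)) with hκ
  have hκ0 : 0 < κ := by positivity
  have hκc : κ ≤ 1/16 := min_le_left _ _
  have hκd : κ ≤ 1/(4*lam1) := min_le_right _ _
  have hev := ((tendsto_rpow_neg_atTop (show (0:ℝ) < 1/8 by norm_num)).eventually (gt_mem_nhds (show (0:ℝ) < 1/10 by norm_num))).and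
    (Real.tendsto_log_atTop.eventually_ge_atTop (4 * lam1))
  rw [eventually_atTop] at hev
  obtain ⟨T1, hT1⟩ := hev
  refine ⟨κ, lam0, hκ0, by rw [hlam0]; linarith, max T1 1, le_max_right _ _, ?_⟩
  intro T hT I S b lam hb hSI hcard hS2 B hB hF
  obtain ⟨hTE, hTlog⟩ := hT1 T ((le_max_left _ _).trans hT)
  have hT1' : 1 ≤ T := (le_max_right _ _).trans hT
  have hT0 : 0 < T := by linarith
  set e : ℕ → ℝ := TS I b lam φ with he
  have hmean : ∀ N : ℕ, ∑ n ∈ Finset.range N, |e n| ≤ A₂ * N + T ^ (1/16:ℝ) := by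
    intro N
    have h1 : ∑ n ∈ Finset.range N, |e n| ≤ ∑ n ∈ Finset.range N, (1 + (e n)^2) / 2 := by
      apply Finset.sum_le_sum
      intro n _
      have := sq_nonneg (1 - |e n|)
      have h3 : |e n|^2 = (e n)^2 := sq_abs _
      nlinarith
    rw [← Finset.sum_div, Finset.sum_add_distrib, Finset.sum_const, Finset.card_range, nsmul_eq_mul, mul_one] at h1
    have h2 := hS2 N
    have h4 : (0:ℝ) ≤ N := Nat.cast_nonneg N
    have h5 : 0 ≤ T ^ (1/16:ℝ) := by positivity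
    nlinarith
  have hA : ∀ n : ℕ, |e n| ≤ (∑ m ∈ I, b m) * (n + 1) := by
    intro n
    have h1 : |e n| ≤ ∑ m ∈ I, b m := TS_bdd hb n
    have h2 : 0 ≤ ∑ m ∈ I, b m := Finset.sum_nonneg (fun m _ => hb m)
    have hn : (0:ℝ) ≤ n := Nat.cast_nonneg n
    nlinarith
  set kk : ℝ := (S.card : ℝ) + 1 with hkk
  have hkk1 : 1 ≤ kk := by rw [hkk]; have : (0:ℝ) ≤ S.card := Nat.cast_nonneg _
                           linarith
  set Ta : ℝ := T * Real.exp (-(lam1 * kk)) with hTa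
  set Tb : ℝ := lam2 * kk * T with hTb
  have hTa0 : 0 < Ta := by positivity
  have hTa2 : T ^ (1/2:ℝ) ≤ Ta := by
    have h1 : lam1 * kk ≤ Real.log T / 2 := by
      rw [hkk, mul_add, mul_one]
      have h2 : lam1 * S.card ≤ lam1 * (1/(4*lam1) * Real.log T) := by
        apply mul_le_mul_of_nonneg_left _ hlam10.le
        refine hcard.trans ?_
        apply mul_le_mul_of_nonneg_right hκd
        linarith
      have h3 : lam1 * (1/(4*lam1) * Real.log T) = Real.log T / 4 := by field_simp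
      linarith
    rw [hTa, Real.rpow_def_of_pos hT0]
    nth_rewrite 2 [← Real.exp_log hT0]
    rw [← Real.exp_add]
    apply Real.exp_le_exp.mpr
    linarith
  have hTa1 : 1 ≤ Ta := (Real.one_le_rpow hT1' (by norm_num)).trans hTa2
  have hTbT : T ≤ Tb := by
    rw [hTb]
    have : 1 ≤ lam2 * kk := by nlinarith
    nlinarith
  set ρ := Real.exp (-(1/T)) with hρ
  have h0 : 0 ≤ ρ := (Real.exp_pos _).le
  have h1 : ρ < 1 := by
    rw [hρ, Real.exp_lt_one_iff]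
    have : 0 < 1/T := by positivity
    linarith
  set K2 : ℝ := (2:ℝ) ^ S.card with hK2
  have hK20 : 0 < K2 := by positivity
  have hK2e : K2 ≤ Real.exp kk := by
    rw [hK2, ← Real.rpow_natCast, Real.rpow_def_of_pos (by norm_num)]
    apply Real.exp_le_exp.mpr
    have hl2 : Real.log 2 ≤ 1 := by have := Real.log_two_lt_d9; linarith
    have h3 : (0:ℝ) ≤ S.card := Nat.cast_nonneg _
    rw [hkk]
    nlinarith
  have h2K : K2 ≤ T ^ κ := by
    rw [hK2, ← Real.rpow_natCast, Real.rpow_def_of_pos (by norm_num), Real.rpow_def_of_pos hT0]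
    apply Real.exp_le_exp.mpr
    have hl2 : Real.log 2 ≤ 1 := by have := Real.log_two_lt_d9; linarith
    have hl2' : 0 ≤ Real.log 2 := Real.log_nonneg (by norm_num)
    have hlT : 0 ≤ Real.log T := Real.log_nonneg hT1'
    have h3 : (0:ℝ) ≤ S.card := Nat.cast_nonneg _
    nlinarith
  have hT16 : T ^ (1/16:ℝ) ≤ T ^ (1/4:ℝ) := Real.rpow_le_rpow_of_exponent_le hT1' (by norm_num)
  have hT16' : T ^ (1/16:ℝ) ≤ Tb := by
    refine le_trans ?_ hTbT
    calc T ^ (1/16:ℝ) ≤ T ^ (1:ℝ) := Real.rpow_le_rpow_of_exponent_le hT1' (by norm_num)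
      _ = T := Real.rpow_one T
  set G : Finset ℕ := (Finset.range (⌊Tb⌋₊ + 1)).filter (fun n : ℕ => Ta ≤ n ∧ B ≤ e n) with hG
  have hcore := core_fin h0 h1 hb hφ hSI hB hF Ta Tb (lam := lam)
  rw [← he, ← hG, ← hK2] at hcore
  have hini := ini_bound3 h0 h1 hA20 hTa1 hmean
  have htail := L_tail3 (T := T) (Z := Tb) hT1' hA hA2 hT16 hmean
  rw [← hρ] at htail
  have hGsum := G_bound3 h0 h1 hA2 hTa0 (hT1'.trans hTbT) hT16' hS2 (G := G) (fun n hn => by
    rw [hG, Finset.mem_filter] at hn; exact hn.2.1) (Finset.filter_subset _ _)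
  set g : ℝ := (G.card : ℝ) with hg
  have hDge : T ^ (1/4:ℝ) ≤ Ds ρ lam S := (L1_ge hT1').trans (Ds_ge h0 h1 lam S)
  have hkey : Ds ρ lam S ≤ K2 * (A₂ * (12 * Ta ^ (1/4:ℝ)) + T ^ (1/16:ℝ)) +
      K2 * (Real.exp (-(Tb/(2*T))) * (5 * A₂ * T ^ (1/4:ℝ))) +
      K2 * (6 * Ta ^ (-(3/4):ℝ) * √(g * (3 * A₂ * Tb))) := by
    have g1 := mul_le_mul_of_nonneg_left hini hK20.le
    have g2 := mul_le_mul_of_nonneg_left htail hK20.le
    have g4 := mul_le_mul_of_nonneg_left hGsum hK20.le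
    linarith
  obtain ⟨q1, q2⟩ := sizes3 hT1' hA2 le_rfl (by positivity) hL10 hkk1 hL1d hκc hK20 hK2e h2K (Ta := Ta) (Tb := Tb)
    (by rw [hTa, hlam1]) (by rw [hTb, hlam2])
  have hT4 : 0 < T ^ (1/4:ℝ) := by positivity
  have hfin : T ^ (1/4:ℝ) * (1/2) ≤ K2 * (6 * Ta ^ (-(3/4):ℝ) * √(g * (3 * A₂ * Tb))) := by
    have e1 : T ^ (1/4:ℝ) * T ^ (-(1/8):ℝ) ≤ T ^ (1/4:ℝ) * (1/10) :=
      mul_le_mul_of_nonneg_left hTE.le hT4.le
    linarith [hDge, hkey, q1, q2]
  have hgfin := fin_num hT0 hA20 hlam20 hkk1 hlam0 (Nat.cast_nonneg _) hK20 hK2e hTa hTb hL20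
    (by rw [hL2d, Real.exp_log]; positivity) hfin
  refine hgfin.trans ?_
  have hsub : G ⊆ (Finset.range (⌊lam0 * kk * T⌋₊ + 1)).filter (fun n : ℕ => T ^ (1/2:ℝ) ≤ n ∧ B ≤ e n) := by
    intro n hn
    rw [hG, Finset.mem_filter, Finset.mem_range] at hn
    rw [Finset.mem_filter, Finset.mem_range]
    refine ⟨?_, hTa2.trans hn.2.1, hn.2.2⟩
    have h5 : ⌊Tb⌋₊ ≤ ⌊lam0 * kk * T⌋₊ := by
      apply Nat.floor_mono
      rw [hTb]
      have : lam2 ≤ lam0 := by rw [hlam0]; linarith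
      gcongr
    omega
  exact_mod_cast Finset.card_le_card hsub

end Pool.Agent.H452R2.PO
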