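import Mathlib
import Pool.Agent.H452R2.PO.P1
import Pool.Agent.H383.PZ.V1

open MeasureTheory Filter Topology Set
open Pool.Agent.H387R2.Vor
open Pool.Agent.H383.PZ
open Pool.Agent.H383.OM (norm_ex cf_le_one cf_le ex_cont ex_add cf_int)

namespace Pool.Agent.H452R2.PO

/-- the sign of the large values -/
noncomputable def sg (k : ℕ) : ℝ := if k % 8 = 2 ∨ k % 8 = 3 ∨ k % 8 = 4 then 1 else -1

/-- the phase -/
noncomputable def ph (k : ℕ) : ℝ := if k % 4 = 2 then Real.pi/4 else if k % 4 = 3 then 0 else -(Real.pi/4)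

lemma phase {k : ℕ} (h4 : k % 4 ≠ 1) (θ : ℝ) :
    sg k * Real.cos (θ + ((k:ℝ) - 3) * Real.pi / 4) = Real.cos (θ - ph k) := by
  obtain ⟨q, r, hr, hk⟩ : ∃ q r : ℕ, r < 8 ∧ k = 8 * q + r := ⟨k / 8, k % 8, Nat.mod_lt _ (by norm_num), by omega⟩
  have e1 : θ + ((k:ℝ) - 3) * Real.pi / 4 = (θ + ((r:ℝ) - 3) * Real.pi / 4) + (q:ℝ) * (2 * Real.pi) := by
    rw [hk]; push_cast; ring
  rw [e1, Real.cos_add_nat_mul_two_pi]
  have h8 : k % 8 = r := by omega
  have h44 : k % 4 = r % 4 := by omega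
  unfold sg ph
  rw [h8, h44]
  rw [h44] at h4
  interval_cases r
  · have : θ + ((0:ℕ) - 3 : ℝ) * Real.pi / 4 = (θ - -(Real.pi/4)) - Real.pi := by push_cast; ring
    rw [this, Real.cos_sub_pi]; norm_num
  · norm_num at h4
  · have : θ + ((2:ℕ) - 3 : ℝ) * Real.pi / 4 = θ - Real.pi/4 := by push_cast; ring
    rw [this]; norm_num
  · have : θ + ((3:ℕ) - 3 : ℝ) * Real.pi / 4 = θ - 0 := by push_cast; ring
    rw [this]; norm_num
  · have : θ + ((4:ℕ) - 3 : ℝ) * Real.pi / 4 = θ - -(Real.pi/4) := by push_cast; ring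
    rw [this]; norm_num
  · norm_num at h4
  · have : θ + ((6:ℕ) - 3 : ℝ) * Real.pi / 4 = (θ - Real.pi/4) + Real.pi := by push_cast; ring
    rw [this, Real.cos_add_pi]; norm_num
  · have : θ + ((7:ℕ) - 3 : ℝ) * Real.pi / 4 = (θ - 0) + Real.pi := by push_cast; ring
    rw [this, Real.cos_add_pi]; norm_num

lemma ph_cone (k : ℕ) : |Real.sin (ph k)| ≤ Real.cos (ph k) := by
  unfold ph
  split_ifs
  · rw [Real.sin_pi_div_four, Real.cos_pi_div_four, abs_of_pos (by positivity)]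
  · simp
  · rw [Real.sin_neg, Real.cos_neg, abs_neg, Real.sin_pi_div_four, Real.cos_pi_div_four, abs_of_pos (by positivity)]

lemma ph_cos_ge (k : ℕ) : 1/2 ≤ Real.cos (ph k) := by
  have h : 1/2 ≤ √2/2 := by
    have : (1:ℝ) ≤ √2 := by rw [Real.one_le_sqrt]; norm_num
    linarith
  unfold ph
  split_ifs
  · rw [Real.cos_pi_div_four]; exact h
  · simp; norm_num
  · rw [Real.cos_neg, Real.cos_pi_div_four]; exact h

lemma sg_sq (k : ℕ) : sg k * sg k = 1 := by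
  unfold sg; split_ifs <;> norm_num

lemma sg_abs (k : ℕ) : |sg k| = 1 := by
  unfold sg; split_ifs <;> norm_num

/-- `c(y) = e(y/2) sinc(π y)` -/
lemma cf_eq {y : ℝ} (hy : y ≠ 0) : cf y = ex (y/2) * ((Real.sin (Real.pi * y) / (Real.pi * y) : ℝ) : ℂ) := by
  have hpi := Real.pi_pos
  have h1 : (((2 * Real.pi * y : ℝ) : ℂ) * Complex.I) ≠ 0 := by
    refine mul_ne_zero ?_ Complex.I_ne_zero
    exact_mod_cast (by positivity : (2 * Real.pi * y) ≠ 0)
  unfold cf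
  rw [div_eq_iff h1]
  have e2 : ex y = ex (y/2) * ex (y/2) := by rw [← ex_add]; congr 1; ring
  have e3 : (1:ℂ) = ex (y/2) * ex (-(y/2)) := by
    rw [← ex_add]; simp [ex]
  have e4 : ex (y/2) - ex (-(y/2)) = 2 * Complex.I * ((Real.sin (Real.pi * y) : ℝ) : ℂ) := by
    unfold ex
    have f1 : (((2 * Real.pi * (y/2) : ℝ) : ℂ) * Complex.I) = ((Real.pi * y : ℝ) : ℂ) * Complex.I := by push_cast; ring
    have f2 : (((2 * Real.pi * (-(y/2)) : ℝ) : ℂ) * Complex.I) = -(((Real.pi * y : ℝ) : ℂ)) * Complex.I := by push_cast; ring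
    rw [f1, f2, Complex.ofReal_sin, Complex.sin]
    have hI : Complex.I * Complex.I = -1 := Complex.I_mul_I
    linear_combination (Complex.exp (((Real.pi * y : ℝ) : ℂ) * Complex.I) - Complex.exp (-(((Real.pi * y : ℝ) : ℂ)) * Complex.I)) * hI
  calc ex y - 1 = ex (y/2) * (ex (y/2) - ex (-(y/2))) := by rw [mul_sub, ← e2, ← e3]
    _ = _ := by
      rw [e4]
      have hy' : (y : ℂ) ≠ 0 := by exact_mod_cast hy
      have hp' : (Real.pi : ℂ) ≠ 0 := by exact_mod_cast hpi.ne'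
      push_cast
      field_simp

lemma ex_pow (y : ℝ) (n : ℕ) : ex y ^ n = ex (n * y) := by
  induction n with
  | zero => simp [ex]
  | succ n ih => rw [pow_succ, ih, ← ex_add]; congr 1; push_cast; ring

/-- the smoothing factor -/
noncomputable def sf (k : ℕ) (δ : ℝ) (ν m : ℕ) : ℝ :=
  (Real.sin (Real.pi * (k * (m : ℝ) ^ (1 / (k:ℝ)) * δ)) / (Real.pi * (k * (m : ℝ) ^ (1 / (k:ℝ)) * δ))) ^ (2 * ν)

lemma sf_nonneg (k : ℕ) (δ : ℝ) (ν m : ℕ) : 0 ≤ sf k δ ν m := by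
  unfold sf; rw [pow_mul]; positivity

lemma sf_le_one (k : ℕ) (δ : ℝ) (ν m : ℕ) : sf k δ ν m ≤ 1 := by
  unfold sf
  rw [pow_mul]
  apply pow_le_one₀ (by positivity)
  rw [div_pow, div_le_one_iff]
  set x := Real.pi * (k * (m : ℝ) ^ (1 / (k:ℝ)) * δ) with hx
  rcases eq_or_ne x 0 with h | h
  · right; left
    rw [h]; norm_num
  · left
    refine ⟨by positivity, ?_⟩
    have := Real.abs_sin_le_abs (x := x)
    nlinarith [sq_abs (Real.sin x), sq_abs x, abs_nonneg (Real.sin x), abs_nonneg x]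

/-- the coefficients -/
noncomputable def bk (k : ℕ) (δ : ℝ) (ν m : ℕ) : ℝ :=
  dk k m * (m : ℝ) ^ (-(((k:ℝ) + 1) / (2 * k)) : ℝ) * (1 / (Real.pi * √(k:ℝ))) * sf k δ ν m

lemma bk_nonneg (k : ℕ) (δ : ℝ) (ν m : ℕ) : 0 ≤ bk k δ ν m := by
  unfold bk
  have := dk_nonneg k m
  have := sf_nonneg k δ ν m
  positivity

/-- the frequencies -/
noncomputable def lk (k : ℕ) (α : ℝ) (m : ℕ) : ℝ := α * (k * (m : ℝ) ^ (1 / (k:ℝ)))

/-- the terms of the smoothed Voronoi series as cosines -/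
lemma tk_eq {k : ℕ} (hk1 : 1 ≤ k) (h4 : k % 4 ≠ 1) {δ : ℝ} (hδ : 0 < δ) (ν : ℕ) (α : ℝ) (n m : ℕ) :
    sg k * tk k δ (2 * ν) (α * n - ν * δ) m = bk k δ ν m * Real.cos (2 * Real.pi * (n * lk k α m) - ph k) := by
  rcases Nat.eq_zero_or_pos m with h0 | h0
  · subst h0
    simp [tk, bk, dk_zero]
  have hm : (0:ℝ) < m := by exact_mod_cast h0
  have hk' : (0:ℝ) < k := by exact_mod_cast hk1
  set y : ℝ := (m : ℝ) ^ (1 / (k:ℝ)) with hy
  have hy0 : 0 < y := by positivity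
  have hne : (k:ℝ) * y * δ ≠ 0 := by positivity
  rw [← phase h4]
  have e1 : ck k δ (2 * ν) (α * n - ν * δ) y =
      Real.cos (2 * Real.pi * (n * lk k α m) + ((k:ℝ) - 3) * Real.pi / 4) * sf k δ ν m := by
    unfold ck ok
    rw [cf_eq hne, mul_pow, ex_pow]
    set s : ℝ := Real.sin (Real.pi * (k * y * δ)) / (Real.pi * (k * y * δ)) with hs
    have e2 : Complex.exp ((((k:ℝ) - 3) * Real.pi / 4 : ℝ) * Complex.I) * ex (k * y * (α * n - ν * δ)) *
        (ex ((2 * ν : ℕ) * (k * y * δ / 2)) * (s : ℂ) ^ (2 * ν)) =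
        Complex.exp (((2 * Real.pi * (n * lk k α m) + ((k:ℝ) - 3) * Real.pi / 4 : ℝ) : ℂ) * Complex.I) * ((s ^ (2 * ν) : ℝ) : ℂ) := by
      rw [← mul_assoc]
      congr 1
      · unfold ex lk
        rw [← Complex.exp_add, ← Complex.exp_add]
        congr 1
        rw [← hy]
        push_cast
        ring
      · push_cast; rfl
    rw [e2, Complex.re_mul_ofReal, Complex.exp_ofReal_mul_I_re]
    rfl
  unfold tk bk
  rw [e1]
  ring

/-- power saving of the smoothing factor -/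
lemma abs_tk_le4 {k : ℕ} (hk2 : 2 ≤ k) {δ : ℝ} (hδ : 0 < δ) {n : ℕ} (hn : 4 * k ≤ n) (R : ℝ) {m : ℕ} (hm : 1 ≤ m) :
    |tk k δ n R m| ≤ dk k m * (m:ℝ) ^ (-(2:ℝ)) * ((m:ℝ)^(-(2:ℝ)) * (1 / δ ^ k) ^ 4) := by
  refine (abs_tk_le' k hk2 δ n R m).trans ?_
  have hm' : (1:ℝ) ≤ m := by exact_mod_cast hm
  have hm0 : (0:ℝ) < m := by linarith
  have hd := dk_nonneg k m
  have h1 : ‖cf (k * (m : ℝ) ^ (1 / (k:ℝ)) * δ)‖ ^ n ≤ ((m:ℝ) ^ (-1:ℝ) * (1 / δ ^ k)) ^ 4 := by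
    calc ‖cf (k * (m : ℝ) ^ (1 / (k:ℝ)) * δ)‖ ^ n ≤ ‖cf (k * (m : ℝ) ^ (1 / (k:ℝ)) * δ)‖ ^ (k * 4) :=
          pow_le_pow_of_le_one (norm_nonneg _) (cf_le_one _) (by omega)
      _ = (‖cf (k * (m : ℝ) ^ (1 / (k:ℝ)) * δ)‖ ^ k) ^ 4 := by rw [pow_mul]
      _ ≤ _ := pow_le_pow_left₀ (by positivity) (cf_pow_k hk2 hδ hm) 4
  have h2 : (m : ℝ) ^ (-(((k:ℝ) + 1) / (2 * k)) : ℝ) ≤ 1 :=
    Real.rpow_le_one_of_one_le_of_nonpos hm' (by
      have : (0:ℝ) ≤ k := Nat.cast_nonneg k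
      have : 0 ≤ ((k:ℝ) + 1) / (2 * k) := by positivity
      linarith)
  have h3 : ((m:ℝ) ^ (-1:ℝ) * (1 / δ ^ k)) ^ 4 = (m:ℝ) ^ (-(2:ℝ)) * ((m:ℝ)^(-(2:ℝ)) * (1 / δ ^ k) ^ 4) := by
    rw [mul_pow, ← mul_assoc, ← Real.rpow_add hm0, ← Real.rpow_natCast ((m:ℝ) ^ (-1:ℝ)) 4, ← Real.rpow_mul hm0.le]
    norm_num
  calc dk k m * (m : ℝ) ^ (-(((k:ℝ) + 1) / (2 * k)) : ℝ) * ‖cf (k * (m : ℝ) ^ (1 / (k:ℝ)) * δ)‖ ^ n
      ≤ dk k m * 1 * ((m:ℝ) ^ (-1:ℝ) * (1 / δ ^ k)) ^ 4 := by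
        apply mul_le_mul _ h1 (by positivity) (by positivity)
        exact mul_le_mul_of_nonneg_left h2 hd
    _ = _ := by rw [h3]; ring

/-- the sum over large `m` is small -/
lemma tail_small {k : ℕ} (hk2 : 2 ≤ k) {δ : ℝ} (hδ : 0 < δ) (hδ1 : δ ≤ 1) {n : ℕ} (hn : 4 * k ≤ n) (R : ℝ) :
    |∑' m : ℕ, tk k δ n R m - ∑ m ∈ Finset.Icc 1 ⌊(1 / δ ^ k) ^ 3⌋₊, tk k δ n R m| ≤
      (∑' m : ℕ, dk k m * (m:ℝ) ^ (-(2:ℝ))) * δ := by
  set M : ℕ := ⌊(1 / δ ^ k) ^ 3⌋₊ with hM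
  have hs := tk_summable hk2 hδ (n := n) (by omega) R
  have hD := summable_dk k (σ := 2) (by norm_num)
  have hD0 : ∀ m : ℕ, 0 ≤ dk k m * (m:ℝ) ^ (-(2:ℝ)) := fun m => by
    have := dk_nonneg k m; positivity
  set f : ℕ → ℝ := fun m => if m ∈ Finset.Icc 1 M then 0 else tk k δ n R m with hf
  have hfin : HasSum (fun m => if m ∈ Finset.Icc 1 M then tk k δ n R m else 0) (∑ m ∈ Finset.Icc 1 M, tk k δ n R m) := by
    have : HasSum (fun m => if m ∈ Finset.Icc 1 M then tk k δ n R m else 0)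
        (∑ m ∈ Finset.Icc 1 M, (if m ∈ Finset.Icc 1 M then tk k δ n R m else 0)) :=
      hasSum_sum_of_ne_finset_zero (fun m hm => if_neg hm)
    have e : ∑ m ∈ Finset.Icc 1 M, (if m ∈ Finset.Icc 1 M then tk k δ n R m else 0) = ∑ m ∈ Finset.Icc 1 M, tk k δ n R m :=
      Finset.sum_congr rfl (fun m hm => if_pos hm)
    rwa [e] at this
  have hdiff := hs.hasSum.sub hfin
  have e : (fun m => tk k δ n R m - if m ∈ Finset.Icc 1 M then tk k δ n R m else 0) = f := by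
    funext m; simp only [hf]; split_ifs <;> ring
  rw [e] at hdiff
  rw [← hdiff.tsum_eq]
  have hbound : ∀ m, ‖f m‖ ≤ dk k m * (m:ℝ) ^ (-(2:ℝ)) * δ := by
    intro m
    simp only [hf]
    split_ifs with h
    · rw [norm_zero]; exact mul_nonneg (hD0 m) hδ.le
    · rcases Nat.eq_zero_or_pos m with h0 | h0
      · subst h0
        simp [tk, dk_zero]
      · rw [Real.norm_eq_abs]
        refine (abs_tk_le4 hk2 hδ hn R h0).trans ?_
        apply mul_le_mul_of_nonneg_left _ (hD0 m)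
        have hmM : M < m := by
          by_contra hcon
          apply h
          rw [Finset.mem_Icc]
          omega
        have h1 : (1 / δ ^ k) ^ 3 < m := (Nat.lt_of_floor_lt hmM)
        set u : ℝ := 1 / δ ^ k with hu
        have hu0 : 0 < u := by positivity
        have hm0 : (0:ℝ) < m := by exact_mod_cast h0
        have h2 : u ^ 6 ≤ (m:ℝ) ^ 2 := by
          calc u ^ 6 = (u ^ 3) ^ 2 := by ring
            _ ≤ _ := pow_le_pow_left₀ (by positivity) h1.le 2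
        have h3 : (m:ℝ) ^ (-(2:ℝ)) = 1 / (m:ℝ) ^ 2 := by
          rw [Real.rpow_neg hm0.le, one_div]; congr 1; exact Real.rpow_two _
        have hδk : δ ^ k ≤ δ := by
          calc δ ^ k ≤ δ ^ 1 := pow_le_pow_of_le_one hδ.le hδ1 (by omega)
            _ = δ := pow_one δ
        have hδk1 : δ ^ k ≤ 1 := pow_le_one₀ hδ.le hδ1
        rw [h3]
        have hm2 : (0:ℝ) < (m:ℝ)^2 := by positivity
        rw [one_div, inv_mul_le_iff₀ hm2]
        have h5 : u ^ 4 = u ^ 6 * (δ ^ k) ^ 2 := by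
          rw [hu]; have : δ ^ k ≠ 0 := by positivity
          field_simp
        rw [h5]
        have h6 : (δ ^ k) ^ 2 ≤ δ := by
          have : 0 ≤ δ ^ k := by positivity
          nlinarith
        exact mul_le_mul h2 h6 (by positivity) (by positivity)
  have := tsum_of_norm_bounded (hD.mul_right δ).hasSum hbound
  rwa [Real.norm_eq_abs, tsum_mul_right] at this

/-- the frequencies are separated -/
lemma root_sep {k : ℕ} (hk1 : 1 ≤ k) {m m' M : ℕ} (hm : 1 ≤ m) (hmm : m < m') (hM : m' ≤ M) :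
    1 / ((k:ℝ) * M) ≤ (m' : ℝ) ^ (1 / (k:ℝ)) - (m : ℝ) ^ (1 / (k:ℝ)) := by
  have hm0 : (0:ℝ) < m := by exact_mod_cast hm
  have hm0' : (0:ℝ) < m' := by exact_mod_cast (by omega : 0 < m')
  have hk' : (0:ℝ) < k := by exact_mod_cast hk1
  have hMr : (m':ℝ) ≤ M := by exact_mod_cast hM
  have hM0 : (0:ℝ) < M := by linarith
  set a : ℝ := (m' : ℝ) ^ (1 / (k:ℝ)) with ha
  set b : ℝ := (m : ℝ) ^ (1 / (k:ℝ)) with hb
  have ha0 : 0 < a := by positivity
  have hb0 : 0 < b := by positivity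
  have hak : a ^ k = m' := by
    rw [ha, ← Real.rpow_natCast, ← Real.rpow_mul hm0'.le, one_div_mul_cancel hk'.ne', Real.rpow_one]
  have hbk : b ^ k = m := by
    rw [hb, ← Real.rpow_natCast, ← Real.rpow_mul hm0.le, one_div_mul_cancel hk'.ne', Real.rpow_one]
  have hab : b ≤ a := Real.rpow_le_rpow hm0.le (by exact_mod_cast hmm.le) (by positivity)
  have ha1 : 1 ≤ a := Real.one_le_rpow (by exact_mod_cast (by omega : 1 ≤ m')) (by positivity)
  have h1 : (∑ i ∈ Finset.range k, a ^ i * b ^ (k - 1 - i)) * (a - b) = a ^ k - b ^ k := (Commute.all a b).geom_sum₂_mul k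
  have h2 : ∑ i ∈ Finset.range k, a ^ i * b ^ (k - 1 - i) ≤ k * M := by
    calc ∑ i ∈ Finset.range k, a ^ i * b ^ (k - 1 - i) ≤ ∑ i ∈ Finset.range k, (M:ℝ) := by
          apply Finset.sum_le_sum
          intro i hi
          rw [Finset.mem_range] at hi
          calc a ^ i * b ^ (k - 1 - i) ≤ a ^ i * a ^ (k - 1 - i) := by gcongr
            _ = a ^ (k - 1) := by rw [← pow_add]; congr 1; omega
            _ ≤ a ^ k := pow_le_pow_right₀ ha1 (by omega)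
            _ = m' := hak
            _ ≤ M := hMr
      _ = k * M := by rw [Finset.sum_const, Finset.card_range, nsmul_eq_mul]
  have h3 : (1:ℝ) ≤ a ^ k - b ^ k := by
    rw [hak, hbk]
    have : (m:ℝ) + 1 ≤ m' := by exact_mod_cast hmm
    linarith
  rw [div_le_iff₀ (by positivity)]
  have h4 : 0 ≤ a - b := by linarith
  calc (1:ℝ) ≤ (∑ i ∈ Finset.range k, a ^ i * b ^ (k - 1 - i)) * (a - b) := by rw [h1]; exact h3
    _ ≤ (k * M) * (a - b) := mul_le_mul_of_nonneg_right h2 h4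
    _ = _ := by ring

end Pool.Agent.H452R2.PO
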