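import Mathlib
import Pool.Agent.H452R2.PO.P2
import Pool.Agent.H452R2.PO.DK
import Pool.Agent.H484R2.PO.Msq
import Pool.Agent.H383.PZ.V4

open MeasureTheory Filter Topology Set
open Pool.Agent.H387R2.Vor
open Pool.Agent.H383.PZ

namespace Pool.Agent.H452R2.PO

/-- a large mean gives a large value -/
lemma exists_of_mean {k : ℕ} (hk1 : 1 ≤ k) (P : Polynomial ℝ) {δ : ℝ} (hδ : 0 < δ) (n : ℕ) {R : ℝ} (hR : 1 ≤ R) {w : ℝ}
    (h : w < sg k * ∫ x, Fk k P (R + x) ∂(mu δ n)) : ∃ x ∈ Icc 0 (n * δ), w ≤ sg k * Fk k P (R + x) := by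
  by_contra hcon
  push Not at hcon
  have := mu_prob hδ n
  have hint := (Fk_int hk1 P hδ n hR).const_mul (sg k)
  have h1 : ∫ x, sg k * Fk k P (R + x) ∂(mu δ n) ≤ ∫ x, w ∂(mu δ n) := by
    apply integral_mono_ae hint (integrable_const _)
    filter_upwards [mu_supp hδ n] with x hx
    exact (hcon x hx).le
  rw [integral_const_mul, integral_const, probReal_univ, one_smul] at h1
  linarith

/-- the mean is the trigonometric sum up to a small error -/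
lemma mean_TS {k : ℕ} (hk2 : 2 ≤ k) (h4 : k % 4 ≠ 1) (P : Polynomial ℝ) {C : ℝ}
    (hV : ∀ (n : ℕ) (R δ : ℝ), 2 * k + 2 ≤ n → 1 ≤ R → 0 < δ → δ ≤ 1/2 →
      |(∫ x, Fk k P (R + x) ∂(mu δ n)) - ∑' m : ℕ, tk k δ n R m| ≤ C * (R ^ (-(1/4) : ℝ) * δ ^ (-(k:ℝ))))
    {δ α : ℝ} (hδ : 0 < δ) (hδ2 : δ ≤ 1/2) (n : ℕ) (hR : 1 ≤ α * n - ((2 * k : ℕ):ℝ) * δ) :
    |sg k * (∫ x, Fk k P ((α * n - ((2 * k : ℕ):ℝ) * δ) + x) ∂(mu δ (2 * (2 * k)))) -
      TS (Finset.Icc 1 ⌊(1 / δ ^ k) ^ 3⌋₊) (bk k δ (2 * k)) (lk k α) (ph k) n| ≤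
      C * ((α * n - ((2 * k : ℕ):ℝ) * δ) ^ (-(1/4) : ℝ) * δ ^ (-(k:ℝ))) + (∑' m : ℕ, dk k m * (m:ℝ) ^ (-(2:ℝ))) * δ := by
  set R : ℝ := α * n - ((2 * k : ℕ):ℝ) * δ with hRd
  have h1 := hV (2 * (2 * k)) R δ (by omega) hR hδ hδ2
  have h2 := tail_small hk2 hδ (by linarith) (n := 2 * (2 * k)) (by omega) R
  have h3 : TS (Finset.Icc 1 ⌊(1 / δ ^ k) ^ 3⌋₊) (bk k δ (2 * k)) (lk k α) (ph k) n =
      sg k * ∑ m ∈ Finset.Icc 1 ⌊(1 / δ ^ k) ^ 3⌋₊, tk k δ (2 * (2 * k)) R m := by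
    unfold TS
    rw [Finset.mul_sum]
    apply Finset.sum_congr rfl
    intro m _
    rw [← tk_eq (by omega) h4 hδ (2 * k) α n m]
  rw [h3]
  set A := ∫ x, Fk k P (R + x) ∂(mu δ (2 * (2 * k))) with hA
  set B := ∑' m : ℕ, tk k δ (2 * (2 * k)) R m with hB
  set D := ∑ m ∈ Finset.Icc 1 ⌊(1 / δ ^ k) ^ 3⌋₊, tk k δ (2 * (2 * k)) R m with hD
  have e : sg k * A - sg k * D = sg k * (A - B) + sg k * (B - D) := by ring
  rw [e]
  refine (abs_add_le _ _).trans ?_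
  rw [abs_mul, abs_mul, sg_abs, one_mul, one_mul]
  exact add_le_add h1 h2

/-- mean square of the trigonometric sum -/
lemma TS_sq {k : ℕ} (hk2 : 2 ≤ k) {δ : ℝ} (hδ : 0 < δ) (hδ1 : δ ≤ 1) (ν N : ℕ) (φ : ℝ) :
    ∑ n ∈ Finset.range N, (TS (Finset.Icc 1 ⌊(1 / δ ^ k) ^ 3⌋₊) (bk k δ ν) (lk k (δ^3 / (4 * k))) φ n)^2 ≤
      (1 + ∑' m : ℕ, (dk k m) ^ 2 * (m:ℝ) ^ (-(((k:ℝ) + 1) / k))) * N +
        (∑' m : ℕ, dk k m * (m:ℝ) ^ (-(2:ℝ)))^2 * (8 * k) * (1/δ)^(15 * k + 3) := by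
  have hk' : (2:ℝ) ≤ k := by exact_mod_cast hk2
  have hk0 : (0:ℝ) < k := by linarith
  have hpi := Real.pi_pos
  have hpi3 := Real.pi_gt_three
  set u : ℝ := 1 / δ ^ k with hu
  have hδk : 0 < δ ^ k := by positivity
  have hu1 : 1 ≤ u := by
    rw [hu, one_le_div hδk]; exact pow_le_one₀ hδ.le hδ1
  set M : ℕ := ⌊u ^ 3⌋₊ with hM
  have hM1 : 1 ≤ M := by
    rw [hM]; apply Nat.le_floor; push_cast; exact one_le_pow₀ hu1
  have hMu : (M:ℝ) ≤ u ^ 3 := Nat.floor_le (by positivity)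
  have hM0 : (0:ℝ) < M := by exact_mod_cast hM1
  set α : ℝ := δ^3 / (4 * k) with hα
  have hα0 : 0 < α := by positivity
  set g : ℝ := α / M with hg
  have hg0 : 0 < g := by positivity
  have hroot : ∀ m : ℕ, 1 ≤ m → (1:ℝ) ≤ (m:ℝ) ^ (1 / (k:ℝ)) := fun m hm =>
    Real.one_le_rpow (by exact_mod_cast hm) (by positivity)
  have hx : ∀ m ∈ Finset.Icc 1 M, g ≤ lk k α m ∧ lk k α m ≤ 1/4 := by
    intro m hm
    rw [Finset.mem_Icc] at hm
    have h1 := hroot m hm.1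
    constructor
    · have h2 : g ≤ α := by
        rw [hg]; apply div_le_self hα0.le; exact_mod_cast hM1
      refine h2.trans ?_
      unfold lk
      have h3 : (1:ℝ) ≤ k * (m:ℝ) ^ (1 / (k:ℝ)) := by nlinarith
      nlinarith
    · unfold lk
      have h2 : (m:ℝ) ^ (1 / (k:ℝ)) ≤ (1/δ)^3 := by
        calc (m:ℝ) ^ (1 / (k:ℝ)) ≤ (u ^ 3) ^ (1 / (k:ℝ)) := by
              apply Real.rpow_le_rpow (Nat.cast_nonneg _) _ (by positivity)
              exact le_trans (by exact_mod_cast hm.2) hMu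
          _ = (1/δ)^3 := by
              have : u ^ 3 = ((1/δ)^3) ^ k := by
                have e0 : u = (1/δ)^k := by rw [hu, one_div_pow]
                rw [e0, ← pow_mul, ← pow_mul, mul_comm 3 k]
              rw [this, ← Real.rpow_natCast, ← Real.rpow_mul (by positivity), mul_one_div_cancel hk0.ne', Real.rpow_one]
      calc α * (k * (m:ℝ) ^ (1 / (k:ℝ))) ≤ α * (k * (1/δ)^3) := by gcongr
        _ = 1/4 := by rw [hα]; field_simp
  have hsep : ∀ m ∈ Finset.Icc 1 M, ∀ m' ∈ Finset.Icc 1 M, m ≠ m' → g ≤ |lk k α m - lk k α m'| := by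
    have key : ∀ m m' : ℕ, 1 ≤ m → m < m' → m' ≤ M → g ≤ lk k α m' - lk k α m := by
      intro m m' h1 h2 h3
      have := root_sep (k := k) (by omega) h1 h2 h3
      unfold lk
      have e1 : α * (k * (m':ℝ) ^ (1 / (k:ℝ))) - α * (k * (m:ℝ) ^ (1 / (k:ℝ))) =
          (α * k) * ((m':ℝ) ^ (1 / (k:ℝ)) - (m:ℝ) ^ (1 / (k:ℝ))) := by ring
      rw [e1]
      calc g = (α * k) * (1 / ((k:ℝ) * M)) := by rw [hg]; field_simp
        _ ≤ _ := mul_le_mul_of_nonneg_left this (by positivity)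
    intro m hm m' hm' hne
    rw [Finset.mem_Icc] at hm hm'
    rcases lt_or_gt_of_ne hne with h | h
    · rw [abs_sub_comm]
      exact (key m m' hm.1 h hm'.2).trans (le_abs_self _)
    · exact (key m' m hm'.1 h hm.2).trans (le_abs_self _)
  have h1 := Pool.Agent.H452R2.PO.msq (Finset.Icc 1 M) (bk k δ ν) (lk k α) φ g hg0 (bk_nonneg k δ ν) hx hsep N
  unfold TS
  refine h1.trans ?_
  have hN : (0:ℝ) ≤ N := Nat.cast_nonneg N
  have hsq : Summable (fun m : ℕ => (dk k m) ^ 2 * (m:ℝ) ^ (-(((k:ℝ) + 1) / k))) :=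
    dk_sq_summable k (by rw [lt_div_iff₀ hk0]; linarith)
  have hD2 := summable_dk k (σ := 2) (by norm_num)
  have hc1 : 1 / (Real.pi * √(k:ℝ)) ≤ 1 := by
    have : 1 ≤ √(k:ℝ) := by rw [Real.one_le_sqrt]; linarith
    rw [div_le_one (by positivity)]; nlinarith
  have hc0 : 0 ≤ 1 / (Real.pi * √(k:ℝ)) := by positivity
  have hbk_le : ∀ m : ℕ, bk k δ ν m ≤ dk k m * (m : ℝ) ^ (-(((k:ℝ) + 1) / (2 * k)) : ℝ) := by
    intro m
    unfold bk
    have h2 := dk_nonneg k m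
    have h3 : 0 ≤ dk k m * (m : ℝ) ^ (-(((k:ℝ) + 1) / (2 * k)) : ℝ) := by positivity
    calc dk k m * (m : ℝ) ^ (-(((k:ℝ) + 1) / (2 * k)) : ℝ) * (1 / (Real.pi * √(k:ℝ))) * sf k δ ν m
        ≤ dk k m * (m : ℝ) ^ (-(((k:ℝ) + 1) / (2 * k)) : ℝ) * 1 * 1 := by
          apply mul_le_mul _ (sf_le_one k δ ν m) (sf_nonneg k δ ν m) (by positivity)
          exact mul_le_mul_of_nonneg_left hc1 h3
      _ = _ := by ring
  have hs1 : ∑ m ∈ Finset.Icc 1 M, bk k δ ν m ^ 2 ≤ 1 + ∑' m : ℕ, (dk k m) ^ 2 * (m:ℝ) ^ (-(((k:ℝ) + 1) / k)) := by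
    calc ∑ m ∈ Finset.Icc 1 M, bk k δ ν m ^ 2 ≤ ∑ m ∈ Finset.Icc 1 M, (dk k m) ^ 2 * (m:ℝ) ^ (-(((k:ℝ) + 1) / k)) := by
          apply Finset.sum_le_sum
          intro m hm
          rw [Finset.mem_Icc] at hm
          have hm0 : (0:ℝ) < m := by exact_mod_cast hm.1
          calc bk k δ ν m ^ 2 ≤ (dk k m * (m : ℝ) ^ (-(((k:ℝ) + 1) / (2 * k)) : ℝ)) ^ 2 :=
                pow_le_pow_left₀ (bk_nonneg k δ ν m) (hbk_le m) 2
            _ = _ := by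
                rw [mul_pow, ← Real.rpow_natCast ((m : ℝ) ^ (-(((k:ℝ) + 1) / (2 * k)) : ℝ)) 2, ← Real.rpow_mul hm0.le]
                congr 2
                push_cast
                field_simp
      _ ≤ ∑' m : ℕ, (dk k m) ^ 2 * (m:ℝ) ^ (-(((k:ℝ) + 1) / k)) :=
          hsq.sum_le_tsum _ (fun m _ => by positivity)
      _ ≤ _ := by linarith
  have hs2 : ∑ m ∈ Finset.Icc 1 M, bk k δ ν m ≤ (M:ℝ)^2 * ∑' m : ℕ, dk k m * (m:ℝ) ^ (-(2:ℝ)) := by
    calc ∑ m ∈ Finset.Icc 1 M, bk k δ ν m ≤ ∑ m ∈ Finset.Icc 1 M, (M:ℝ)^2 * (dk k m * (m:ℝ) ^ (-(2:ℝ))) := by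
          apply Finset.sum_le_sum
          intro m hm
          rw [Finset.mem_Icc] at hm
          have hm0 : (0:ℝ) < m := by exact_mod_cast hm.1
          have hm1 : (1:ℝ) ≤ m := by exact_mod_cast hm.1
          have hmM : (m:ℝ) ≤ M := by exact_mod_cast hm.2
          refine (hbk_le m).trans ?_
          have h2 := dk_nonneg k m
          have h3 : (m : ℝ) ^ (-(((k:ℝ) + 1) / (2 * k)) : ℝ) ≤ 1 :=
            Real.rpow_le_one_of_one_le_of_nonpos hm1 (by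
              have : 0 ≤ ((k:ℝ) + 1) / (2 * k) := by positivity
              linarith)
          have h4 : (1:ℝ) ≤ (M:ℝ)^2 * (m:ℝ) ^ (-(2:ℝ)) := by
            have e : (m:ℝ) ^ (-(2:ℝ)) = 1 / (m:ℝ) ^ 2 := by
              rw [Real.rpow_neg hm0.le, one_div]; congr 1; exact Real.rpow_two _
            rw [e, mul_one_div, one_le_div (by positivity)]
            exact pow_le_pow_left₀ hm0.le hmM 2
          calc dk k m * (m : ℝ) ^ (-(((k:ℝ) + 1) / (2 * k)) : ℝ) ≤ dk k m * 1 := mul_le_mul_of_nonneg_left h3 h2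
            _ ≤ dk k m * ((M:ℝ)^2 * (m:ℝ) ^ (-(2:ℝ))) := mul_le_mul_of_nonneg_left h4 h2
            _ = _ := by ring
      _ = (M:ℝ)^2 * ∑ m ∈ Finset.Icc 1 M, dk k m * (m:ℝ) ^ (-(2:ℝ)) := by rw [Finset.mul_sum]
      _ ≤ _ := by
          apply mul_le_mul_of_nonneg_left _ (by positivity)
          exact hD2.sum_le_tsum _ (fun m _ => by have := dk_nonneg k m; positivity)
  set D2 : ℝ := ∑' m : ℕ, dk k m * (m:ℝ) ^ (-(2:ℝ)) with hD2d
  have hD20 : 0 ≤ D2 := tsum_nonneg (fun m => by have := dk_nonneg k m; positivity)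
  have hs0 : 0 ≤ ∑ m ∈ Finset.Icc 1 M, bk k δ ν m := Finset.sum_nonneg (fun m _ => bk_nonneg k δ ν m)
  have hs3 : (∑ m ∈ Finset.Icc 1 M, bk k δ ν m) ^ 2 * (2 / g) ≤ D2^2 * (8 * k) * (1/δ)^(15 * k + 3) := by
    have e1 : 2 / g = 2 * M / α := by rw [hg]; field_simp
    calc (∑ m ∈ Finset.Icc 1 M, bk k δ ν m) ^ 2 * (2 / g) ≤ ((M:ℝ)^2 * D2)^2 * (2 * M / α) := by
          rw [e1]
          apply mul_le_mul_of_nonneg_right _ (by positivity)
          exact pow_le_pow_left₀ hs0 hs2 2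
      _ = D2^2 * (M:ℝ)^5 * (2 / α) := by ring
      _ ≤ D2^2 * (u^3)^5 * (2 / α) := by gcongr
      _ = _ := by
          have e2 : u = (1/δ)^k := by rw [hu, one_div_pow]
          have e3 : 2 / α = (8 * k) * (1/δ)^3 := by
            rw [hα]; field_simp; norm_num
          rw [e2, e3, ← pow_mul, ← pow_mul]
          have : (1/δ)^(15 * k + 3) = (1/δ)^(k * 3 * 5) * (1/δ)^3 := by
            rw [← pow_add]; congr 1; ring
          rw [this]; ring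
  have := mul_le_mul_of_nonneg_right hs1 hN
  linarith

/-- counting integer parts -/
lemma card_image_ge {G : Finset ℕ} {f : ℕ → ℕ} {α : ℝ} (hα : 0 < α) (hα1 : α ≤ 1)
    (hf : ∀ n ∈ G, |α * n - f n| ≤ 2) : (G.card : ℝ) ≤ (5/α) * ((G.image f).card : ℝ) := by
  classical
  have h1 : G.card ≤ (⌊4/α⌋₊ + 1) * (G.image f).card := by
    apply Finset.card_le_mul_card_image
    intro j _
    set F := G.filter (fun x => f x = j) with hF
    rcases F.eq_empty_or_nonempty with h0 | h0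
    · rw [h0]; simp
    · set n0 := F.min' h0 with hn0
      have hn0F : n0 ∈ F := Finset.min'_mem F h0
      have hsub : F ⊆ Finset.Icc n0 (n0 + ⌊4/α⌋₊) := by
        intro n hn
        rw [Finset.mem_Icc]
        have hmin : n0 ≤ n := Finset.min'_le F n hn
        refine ⟨hmin, ?_⟩
        rw [hF, Finset.mem_filter] at hn hn0F
        have a1 := abs_le.mp (hf n hn.1)
        have a2 := abs_le.mp (hf n0 hn0F.1)
        rw [hn.2] at a1
        rw [hn0F.2] at a2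
        have h3 : α * ((n:ℝ) - n0) ≤ 4 := by linarith [a1.1, a1.2, a2.1, a2.2]
        have h4 : ((n - n0 : ℕ) : ℝ) ≤ 4/α := by
          rw [Nat.cast_sub hmin, le_div_iff₀ hα]; linarith
        have h5 : n - n0 ≤ ⌊4/α⌋₊ := Nat.le_floor h4
        omega
      calc F.card ≤ (Finset.Icc n0 (n0 + ⌊4/α⌋₊)).card := Finset.card_le_card hsub
        _ = ⌊4/α⌋₊ + 1 := by rw [Nat.card_Icc]; omega
  have h2 : ((⌊4/α⌋₊ + 1 : ℕ) : ℝ) ≤ 5/α := by
    push_cast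
    have h3 : (⌊4/α⌋₊ : ℝ) ≤ 4/α := Nat.floor_le (by positivity)
    have h4 : 1 ≤ 1/α := by rw [one_le_div hα]; exact hα1
    have h5 : 5/α = 4/α + 1/α := by ring
    linarith
  calc (G.card : ℝ) ≤ (((⌊4/α⌋₊ + 1) * (G.image f).card : ℕ) : ℝ) := by exact_mod_cast h1
    _ = ((⌊4/α⌋₊ + 1 : ℕ) : ℝ) * ((G.image f).card : ℝ) := by push_cast; ring
    _ ≤ _ := mul_le_mul_of_nonneg_right h2 (Nat.cast_nonneg _)

end Pool.Agent.H452R2.PO
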