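import Mathlib
import Pool.Agent.H452R2.PO.P3

open MeasureTheory Filter Topology Set
open Pool.Agent.H383.PZ

namespace Pool.Agent.H452R2.PO

/-- the smoothing factor is large for small frequencies -/
lemma sf_half (k ν : ℕ) : ∃ η : ℝ, 0 < η ∧ ∀ (δ : ℝ) (m : ℕ),
    0 < Real.pi * (k * (m : ℝ) ^ (1 / (k:ℝ)) * δ) →
    Real.pi * (k * (m : ℝ) ^ (1 / (k:ℝ)) * δ) ≤ η → 1/2 ≤ sf k δ ν m := by
  have h1 : Tendsto (fun x : ℝ => (Real.sinc x) ^ (2 * ν)) (𝓝 0) (𝓝 ((Real.sinc 0) ^ (2 * ν))) :=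
    ((Real.continuous_sinc.pow _).tendsto 0)
  rw [Real.sinc_zero, one_pow] at h1
  have h2 := h1.eventually (lt_mem_nhds (show (1/2:ℝ) < 1 by norm_num))
  rw [Metric.eventually_nhds_iff] at h2
  obtain ⟨η, hη, h2⟩ := h2
  refine ⟨η/2, by positivity, ?_⟩
  intro δ m h0 hle
  set x := Real.pi * (k * (m : ℝ) ^ (1 / (k:ℝ)) * δ) with hx
  have h3 := h2 (y := x) (by rw [dist_zero_right, Real.norm_eq_abs, abs_of_pos h0]; linarith)
  rw [Real.sinc_of_ne_zero h0.ne'] at h3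
  unfold sf
  rw [← hx]
  exact h3.le

lemma ev_log (c : ℝ) {ε : ℝ} (hε : 0 < ε) : ∀ᶠ X : ℝ in atTop, c * (Real.log X)^3 ≤ X^ε := by
  have h1 := (isLittleO_log_rpow_rpow_atTop (3:ℝ) hε).tendsto_div_nhds_zero
  have h2 := h1.eventually (gt_mem_nhds (show (0:ℝ) < 1/(|c| + 1) by positivity))
  filter_upwards [h2, eventually_gt_atTop 1] with X h3 h4
  have hX : 0 < X ^ ε := by positivity
  have hl : 0 < Real.log X := Real.log_pos h4
  rw [div_lt_iff₀ hX] at h3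
  have e : (Real.log X) ^ (3:ℝ) = (Real.log X)^3 := by
    rw [← Real.rpow_natCast]; norm_num
  rw [e] at h3
  have h5 : (|c| + 1) * (Real.log X)^3 ≤ (|c| + 1) * (1/(|c| + 1) * X ^ ε) :=
    mul_le_mul_of_nonneg_left h3.le (by positivity)
  have h6 : (|c| + 1) * (1/(|c| + 1) * X ^ ε) = X ^ ε := by
    have : |c| + 1 ≠ 0 := by positivity
    field_simp
  have h7 : c ≤ |c| + 1 := by linarith [le_abs_self c]
  have h8 : 0 ≤ (Real.log X)^3 := by positivity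
  nlinarith

lemma ev_const (c : ℝ) {ε : ℝ} (hε : 0 < ε) : ∀ᶠ X : ℝ in atTop, c ≤ X^ε :=
  (tendsto_rpow_atTop hε).eventually_ge_atTop c

lemma ev_neg (c : ℝ) {ε d : ℝ} (hε : 0 < ε) (hd : 0 < d) : ∀ᶠ X : ℝ in atTop, c * X^(-ε) ≤ d := by
  have h := (tendsto_rpow_neg_atTop hε).const_mul c
  rw [mul_zero] at h
  exact (h.eventually (gt_mem_nhds hd)).mono (fun X hX => hX.le)

lemma kappa_facts {k : ℕ} (hk2 : 2 ≤ k) {κ' : ℝ} (hκ' : κ' = 1/(64 * (15 * (k:ℝ) + 3))) :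
    0 < κ' ∧ κ' * (15 * (k:ℝ) + 3) = 1/64 ∧ (k:ℝ) * κ' ≤ 1/32 ∧ 3 * κ' ≤ 1/4 := by
  have hk' : (2:ℝ) ≤ k := by exact_mod_cast hk2
  have hd : (0:ℝ) < 15 * (k:ℝ) + 3 := by linarith
  refine ⟨by rw [hκ']; positivity, ?_, ?_, ?_⟩
  · rw [hκ']; field_simp
  · rw [hκ', mul_one_div, div_le_div_iff₀ (by positivity) (by norm_num)]; linarith
  · rw [hκ', mul_one_div, div_le_div_iff₀ (by positivity) (by norm_num)]; linarith

open Classical in
/-- **many blocks with a large value** -/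
theorem main_block {k : ℕ} (hk2 : 2 ≤ k) (h4 : k % 4 ≠ 1) (P : Polynomial ℝ)
    (hV : ∃ C : ℝ, 0 < C ∧ ∀ (n : ℕ) (R δ : ℝ), 2 * k + 2 ≤ n → 1 ≤ R → 0 < δ → δ ≤ 1/2 →
      |(∫ x, Fk k P (R + x) ∂(mu δ n)) - ∑' m : ℕ, tk k δ n R m| ≤ C * (R ^ (-(1/4) : ℝ) * δ ^ (-(k:ℝ))))
    {a γ : ℝ} (ha : 0 < a) (hγ : 0 ≤ γ)
    (hN : ∃ c K0 : ℝ, 0 < c ∧ ∀ K : ℝ, K0 ≤ K → ∃ 𝓜 : Finset ℕ, (𝓜.card : ℝ) ≤ K ∧
      (∀ m ∈ 𝓜, 1 ≤ m ∧ (m:ℝ) ≤ K ^ 3) ∧
      c * K ^ a * (Real.log K) ^ γ ≤ ∑ m ∈ 𝓜, dk k m * (m : ℝ) ^ (-(((k:ℝ) + 1) / (2 * k)) : ℝ)) :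
    ∃ p κ C K₀ X₀ : ℝ, 0 < p ∧ 0 < κ ∧ 0 < C ∧ 1 ≤ K₀ ∧ ∀ X : ℝ, X₀ ≤ X → ∀ K : ℝ, K₀ ≤ K → K ≤ κ * Real.log X →
      X * Real.exp (-(C * K)) ≤
        (((Finset.range (⌊X⌋₊ + 1)).filter (fun j : ℕ => 1 ≤ j ∧ ∃ y : ℝ, (j:ℝ) ≤ y ∧ y < j + 1 ∧
          p * K ^ a * (Real.log K) ^ γ ≤ sg k * Fk k P y)).card : ℝ) := by
  have hk' : (2:ℝ) ≤ k := by exact_mod_cast hk2
  have hk0 : (0:ℝ) < k := by linarith
  have hpi := Real.pi_pos
  have hsk : 0 < √(k:ℝ) := Real.sqrt_pos.mpr hk0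
  obtain ⟨C, hC, hV⟩ := hV
  obtain ⟨c₁, K1, hc₁, hN⟩ := hN
  set D2 : ℝ := ∑' m : ℕ, dk k m * (m:ℝ) ^ (-(2:ℝ)) with hD2
  have hD20 : 0 ≤ D2 := tsum_nonneg (fun m => by have := dk_nonneg k m; positivity)
  set A₂ : ℝ := 1 + ∑' m : ℕ, (dk k m) ^ 2 * (m:ℝ) ^ (-(((k:ℝ) + 1) / k)) with hA2
  have hA21 : 1 ≤ A₂ := by
    have : 0 ≤ ∑' m : ℕ, (dk k m) ^ 2 * (m:ℝ) ^ (-(((k:ℝ) + 1) / k)) := tsum_nonneg (fun m => by positivity)
    rw [hA2]; linarith
  obtain ⟨κ₀, lam0, hκ₀, hlam0, T0, hT01, hcount⟩ := count_fin (ph_cone k) hA21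
  obtain ⟨η, hη, hsf⟩ := sf_half k (2 * k)
  set κ' : ℝ := 1/(64 * (15 * (k:ℝ) + 3)) with hκ'
  obtain ⟨hκ'0, hκ'1, hκ'2, hκ'3⟩ := kappa_facts hk2 hκ'
  have hlam00 : 0 < lam0 := by linarith
  set p : ℝ := c₁/(32 * Real.pi * √(k:ℝ)) with hp
  have hp0 : 0 < p := by positivity
  -- conditions on K
  have evK : ∀ᶠ K : ℝ in atTop, (1/p ≤ K ^ a ∧ 3 ≤ K) ∧ K1 ≤ K :=
    ((ev_const (1/p) ha).and (eventually_ge_atTop 3)).and (eventually_ge_atTop K1)
  obtain ⟨K₀, hK₀⟩ := eventually_atTop.mp evK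
  -- conditions on X
  have evX := (((ev_log (4 * lam0) (ε := 1/2) (by norm_num)).and (ev_const (T0) (ε := 1/2) (by norm_num))).and
    ((ev_const (D2^2 * (8 * k)) (ε := 1/64) (by norm_num)).and (ev_log (64 * k * lam0) (ε := 1/4) (by norm_num)))).and
    (((ev_neg C (ε := 1/32) (d := 1/4) (by norm_num) (by norm_num)).and (ev_neg D2 hκ'0 (d := 1/8) (by norm_num))).and
    (((ev_neg 1 hκ'0 (d := 1/(4 * k)) (by positivity)).and (ev_log 1 (ε := 3 * k * κ') (by positivity))).and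
    ((ev_log (Real.pi * k / η) hκ'0).and ((Real.tendsto_log_atTop.eventually_ge_atTop 1).and (eventually_ge_atTop 4)))))
  obtain ⟨X₀, hX₀⟩ := eventually_atTop.mp evX
  refine ⟨p, min (κ₀/2) 1, 22 * lam0 + 1, max K₀ 1, X₀, hp0, by positivity, by positivity, le_max_right _ _, ?_⟩
  intro X hX K hK hKX
  obtain ⟨⟨⟨x1, x2⟩, ⟨x3, x4⟩⟩, ⟨x5, x6⟩, ⟨x7, x8⟩, x9, x10, x11⟩ := hX₀ X hX
  obtain ⟨⟨k1, k2⟩, k3⟩ := hK₀ K ((le_max_left _ _).trans hK)
  have hX0 : 0 < X := by linarith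
  have hX1 : 1 ≤ X := by linarith
  set L : ℝ := Real.log X with hL
  have hL0 : 0 < L := by linarith
  have hL3 : L ≤ L^3 := by
    have : L * 1 ≤ L * L^2 := mul_le_mul_of_nonneg_left (one_le_pow₀ x10) hL0.le
    calc L = L * 1 := (mul_one L).symm
      _ ≤ L * L^2 := this
      _ = L^3 := by ring
  have hK0 : 0 < K := by linarith
  have hK1 : 1 ≤ K := by linarith
  have hKL : K ≤ L := hKX.trans (by
    calc min (κ₀/2) 1 * L ≤ 1 * L := mul_le_mul_of_nonneg_right (min_le_right _ _) hL0.le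
      _ = L := one_mul L)
  have hKκ : K ≤ κ₀/2 * L := hKX.trans (mul_le_mul_of_nonneg_right (min_le_left _ _) hL0.le)
  obtain ⟨S, hScard, hSm, hSsum⟩ := hN K k3
  set W : ℝ := K ^ a * (Real.log K) ^ γ with hW
  have hlogK : 1 ≤ Real.log K := by
    have h1 : Real.exp 1 ≤ K := by
      have := Real.exp_one_lt_d9
      linarith
    have := Real.log_le_log (Real.exp_pos 1) h1
    rwa [Real.log_exp] at this
  have hpW : 1 ≤ p * W := by
    have h1 : 1 ≤ (Real.log K) ^ γ := Real.one_le_rpow hlogK hγ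
    have h2 : 1 ≤ p * K ^ a := by
      have := mul_le_mul_of_nonneg_left k1 hp0.le
      rwa [mul_one_div_cancel hp0.ne'] at this
    rw [hW, ← mul_assoc]
    nlinarith
  -- parameters
  set δ : ℝ := X ^ (-κ') with hδ
  have hδ0 : 0 < δ := by positivity
  have hδ4k : 2 * (k:ℝ) * δ ≤ 1/2 := by
    have h1 : δ ≤ 1/(4 * k) := by rw [one_mul] at x7; exact x7
    calc 2 * (k:ℝ) * δ ≤ 2 * k * (1/(4 * k)) := mul_le_mul_of_nonneg_left h1 (by positivity)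
      _ = 1/2 := by field_simp; norm_num
  have hδ2 : δ ≤ 1/2 := by nlinarith
  have hδ1 : δ ≤ 1 := by linarith
  have hinvδ : 1/δ = X ^ κ' := by rw [hδ, Real.rpow_neg hX0.le, one_div, inv_inv]
  set α : ℝ := δ^3/(4 * k) with hα
  have hα0 : 0 < α := by positivity
  have hα1 : α ≤ 1 := by
    rw [hα, div_le_one (by positivity)]
    have : δ^3 ≤ 1 := pow_le_one₀ hδ0.le hδ1
    linarith
  set T : ℝ := X/(4 * lam0 * K * α) with hT
  have hT0 : 0 < T := by positivity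
  have hTX : X ^ (1/2:ℝ) ≤ T := by
    have h1 : 4 * lam0 * K * α ≤ X ^ (1/2:ℝ) := by
      calc 4 * lam0 * K * α ≤ 4 * lam0 * K * 1 := mul_le_mul_of_nonneg_left hα1 (by positivity)
        _ = 4 * lam0 * K := mul_one _
        _ ≤ 4 * lam0 * L^3 := mul_le_mul_of_nonneg_left (hKL.trans hL3) (by positivity)
        _ ≤ _ := x1
    rw [hT, le_div_iff₀ (by positivity)]
    calc X ^ (1/2:ℝ) * (4 * lam0 * K * α) ≤ X ^ (1/2:ℝ) * X ^ (1/2:ℝ) := mul_le_mul_of_nonneg_left h1 (by positivity)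
      _ = X := by rw [← Real.rpow_add hX0]; norm_num
  have hTT0 : T0 ≤ T := x2.trans hTX
  have hlogT : L/2 ≤ Real.log T := by
    have := Real.log_le_log (by positivity) hTX
    rw [Real.log_rpow hX0] at this
    linarith
  have hScard' : (S.card : ℝ) ≤ κ₀ * Real.log T := by
    calc (S.card : ℝ) ≤ K := hScard
      _ ≤ κ₀ * (L/2) := by linarith
      _ ≤ _ := mul_le_mul_of_nonneg_left hlogT hκ₀.le
  set M : ℕ := ⌊(1 / δ ^ k) ^ 3⌋₊ with hM
  have hu : (1 / δ ^ k) ^ 3 = X ^ (3 * k * κ') := by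
    rw [show (1 / δ ^ k) = (1/δ)^k by rw [one_div_pow], hinvδ, ← pow_mul, ← Real.rpow_natCast,
      ← Real.rpow_mul hX0.le]
    congr 1; push_cast; ring
  have hSI : S ⊆ Finset.Icc 1 M := by
    intro m hm
    obtain ⟨m1, m2⟩ := hSm m hm
    rw [Finset.mem_Icc]
    refine ⟨m1, ?_⟩
    rw [hM]
    apply Nat.le_floor
    rw [hu]
    calc (m:ℝ) ≤ K^3 := m2
      _ ≤ L^3 := pow_le_pow_left₀ hK0.le hKL 3
      _ = 1 * L^3 := (one_mul _).symm
      _ ≤ _ := x8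
  have hS2 : ∀ N : ℕ, ∑ n ∈ Finset.range N, (TS (Finset.Icc 1 M) (bk k δ (2 * k)) (lk k α) (ph k) n)^2 ≤
      A₂ * N + T ^ (1/16:ℝ) := by
    intro N
    refine (TS_sq hk2 hδ0 hδ1 (2 * k) N (ph k)).trans ?_
    have h1 : D2^2 * (8 * k) * (1/δ)^(15 * k + 3) ≤ T ^ (1/16:ℝ) := by
      have e1 : (1/δ)^(15 * k + 3) = X ^ (1/64:ℝ) := by
        rw [hinvδ, ← Real.rpow_natCast, ← Real.rpow_mul hX0.le]
        congr 1
        push_cast
        exact hκ'1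
      rw [e1]
      calc D2^2 * (8 * k) * X ^ (1/64:ℝ) ≤ X ^ (1/64:ℝ) * X ^ (1/64:ℝ) := mul_le_mul_of_nonneg_right x3 (by positivity)
        _ = (X ^ (1/2:ℝ)) ^ (1/16:ℝ) := by rw [← Real.rpow_add hX0, ← Real.rpow_mul hX0.le]; norm_num
        _ ≤ T ^ (1/16:ℝ) := Real.rpow_le_rpow (by positivity) hTX (by norm_num)
    linarith
  -- the coefficients
  have hbS : 4 * (p * W) ≤ (1/2) * Real.cos (ph k) * ∑ m ∈ S, bk k δ (2 * k) m := by
    have h1 : (1/(2 * Real.pi * √(k:ℝ))) * ∑ m ∈ S, dk k m * (m : ℝ) ^ (-(((k:ℝ) + 1) / (2 * k)) : ℝ) ≤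
        ∑ m ∈ S, bk k δ (2 * k) m := by
      rw [Finset.mul_sum]
      apply Finset.sum_le_sum
      intro m hm
      obtain ⟨m1, m2⟩ := hSm m hm
      have hm0 : (0:ℝ) < m := by exact_mod_cast m1
      have hm1 : (1:ℝ) ≤ m := by exact_mod_cast m1
      have hr : (m:ℝ) ^ (1 / (k:ℝ)) ≤ L^3 := by
        calc (m:ℝ) ^ (1 / (k:ℝ)) ≤ (m:ℝ) ^ (1:ℝ) := Real.rpow_le_rpow_of_exponent_le hm1 (by
              rw [div_le_one hk0]; linarith)
          _ = m := Real.rpow_one _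
          _ ≤ K^3 := m2
          _ ≤ L^3 := pow_le_pow_left₀ hK0.le hKL 3
      have hx : Real.pi * (k * (m : ℝ) ^ (1 / (k:ℝ)) * δ) ≤ η := by
        have e1 : Real.pi * k / η * L^3 * δ ≤ 1 := by
          have := mul_le_mul_of_nonneg_right x9 hδ0.le
          have e2 : X ^ κ' * δ = 1 := by rw [hδ, ← Real.rpow_add hX0, add_neg_cancel, Real.rpow_zero]
          rw [e2] at this
          exact this
        calc Real.pi * (k * (m : ℝ) ^ (1 / (k:ℝ)) * δ) ≤ Real.pi * (k * L^3 * δ) := by gcongr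
          _ = η * (Real.pi * k / η * L^3 * δ) := by field_simp
          _ ≤ η * 1 := mul_le_mul_of_nonneg_left e1 hη.le
          _ = η := mul_one η
      have hs := hsf δ m (by positivity) hx
      unfold bk
      have hd := dk_nonneg k m
      have h2 : 0 ≤ dk k m * (m : ℝ) ^ (-(((k:ℝ) + 1) / (2 * k)) : ℝ) * (1 / (Real.pi * √(k:ℝ))) := by positivity
      calc 1/(2 * Real.pi * √(k:ℝ)) * (dk k m * (m : ℝ) ^ (-(((k:ℝ) + 1) / (2 * k)) : ℝ)) =
          dk k m * (m : ℝ) ^ (-(((k:ℝ) + 1) / (2 * k)) : ℝ) * (1 / (Real.pi * √(k:ℝ))) * (1/2) := by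
            field_simp
        _ ≤ _ := mul_le_mul_of_nonneg_left hs h2
    have h2 : c₁ * W ≤ ∑ m ∈ S, dk k m * (m : ℝ) ^ (-(((k:ℝ) + 1) / (2 * k)) : ℝ) := by
      rw [hW, ← mul_assoc]; exact hSsum
    have h3 : (1/(2 * Real.pi * √(k:ℝ))) * (c₁ * W) ≤ ∑ m ∈ S, bk k δ (2 * k) m :=
      (mul_le_mul_of_nonneg_left h2 (by positivity)).trans h1
    have hW0 : 0 ≤ W := by rw [hW]; positivity
    have hcos := ph_cos_ge k
    have h5 : 0 ≤ ∑ m ∈ S, bk k δ (2 * k) m := Finset.sum_nonneg (fun m _ => bk_nonneg k δ (2 * k) m)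
    calc 4 * (p * W) = (1/2) * (1/2) * ((1/(2 * Real.pi * √(k:ℝ))) * (c₁ * W)) := by rw [hp]; field_simp; ring
      _ ≤ (1/2) * (1/2) * ∑ m ∈ S, bk k δ (2 * k) m := mul_le_mul_of_nonneg_left h3 (by norm_num)
      _ ≤ (1/2) * Real.cos (ph k) * ∑ m ∈ S, bk k δ (2 * k) m := by
          apply mul_le_mul_of_nonneg_right _ h5
          linarith
  have hcnt := hcount T hTT0 (Finset.Icc 1 M) S (bk k δ (2 * k)) (lk k α) (bk_nonneg k δ (2 * k)) hSI hScard' hS2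
    (2 * (p * W)) (by linarith) (by linarith)
  set G : Finset ℕ := (Finset.range (⌊lam0 * (S.card + 1) * T⌋₊ + 1)).filter
    (fun n : ℕ => T ^ (1/2:ℝ) ≤ n ∧ 2 * (p * W) ≤ TS (Finset.Icc 1 M) (bk k δ (2 * k)) (lk k α) (ph k) n) with hG
  have hαT : X ^ (1/4:ℝ) + 1 ≤ α * T ^ (1/2:ℝ) := by
    have h1 : (X ^ (1/4:ℝ) + 1)^2 ≤ (α * T ^ (1/2:ℝ))^2 := by
      have hq : 1 ≤ X ^ (1/4:ℝ) := Real.one_le_rpow hX1 (by norm_num)
      have e1 : (X ^ (1/4:ℝ) + 1)^2 ≤ 4 * X ^ (1/2:ℝ) := by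
        have e2 : X ^ (1/2:ℝ) = X ^ (1/4:ℝ) * X ^ (1/4:ℝ) := by rw [← Real.rpow_add hX0]; norm_num
        rw [e2]; nlinarith
      have e3 : (α * T ^ (1/2:ℝ))^2 = α * X / (4 * lam0 * K) := by
        rw [mul_pow, ← Real.rpow_natCast (T ^ (1/2:ℝ)) 2, ← Real.rpow_mul hT0.le]
        norm_num
        rw [hT]; field_simp
      rw [e3]
      refine e1.trans ?_
      rw [le_div_iff₀ (by positivity)]
      have e4 : α = X ^ (-(3 * κ')) / (4 * k) := by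
        rw [hα, hδ, ← Real.rpow_natCast, ← Real.rpow_mul hX0.le]
        congr 2; push_cast; ring
      have e5 : X ^ (-(1/4):ℝ) ≤ X ^ (-(3 * κ')) := Real.rpow_le_rpow_of_exponent_le hX1 (by linarith)
      have e6 : 64 * k * lam0 * K ≤ X ^ (1/4:ℝ) := by
        calc 64 * k * lam0 * K ≤ 64 * k * lam0 * L^3 := mul_le_mul_of_nonneg_left (hKL.trans hL3) (by positivity)
          _ ≤ _ := x4
      calc 4 * X ^ (1/2:ℝ) * (4 * lam0 * K) = (64 * k * lam0 * K) * (X ^ (1/2:ℝ) / (4 * k)) := by field_simp; ring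
        _ ≤ X ^ (1/4:ℝ) * (X ^ (1/2:ℝ) / (4 * k)) := mul_le_mul_of_nonneg_right e6 (by positivity)
        _ = (X ^ (-(1/4):ℝ) / (4 * k)) * X := by
            have : X ^ (1/4:ℝ) * X ^ (1/2:ℝ) = X ^ (-(1/4):ℝ) * X := by
              nth_rewrite 4 [← Real.rpow_one X]
              rw [← Real.rpow_add hX0, ← Real.rpow_add hX0]; norm_num
            calc X ^ (1/4:ℝ) * (X ^ (1/2:ℝ) / (4 * k)) = (X ^ (1/4:ℝ) * X ^ (1/2:ℝ)) / (4 * k) := by ring
              _ = _ := by rw [this]; ring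
        _ ≤ α * X := by
            rw [e4]
            apply mul_le_mul_of_nonneg_right _ hX0.le
            exact div_le_div_of_nonneg_right e5 (by positivity)
    exact (pow_le_pow_iff_left₀ (by positivity) (by positivity) (by norm_num)).mp h1
  have hy : ∀ n ∈ G, ∃ y : ℝ, 1 ≤ y ∧ |y - α * n| ≤ 1/2 ∧ p * W ≤ sg k * Fk k P y := by
    intro n hn
    rw [hG, Finset.mem_filter] at hn
    obtain ⟨_, hn1, hn2⟩ := hn
    set R : ℝ := α * n - ((2 * k : ℕ):ℝ) * δ with hR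
    have e2k : ((2 * k : ℕ):ℝ) * δ ≤ 1/2 := by push_cast; exact hδ4k
    have hRX : X ^ (1/4:ℝ) ≤ R := by
      have h1 : α * T ^ (1/2:ℝ) ≤ α * n := mul_le_mul_of_nonneg_left hn1 hα0.le
      rw [hR]; linarith
    have hR1 : 1 ≤ R := (Real.one_le_rpow hX1 (by norm_num)).trans hRX
    have hR0 : 0 < R := by linarith
    have hmean := mean_TS hk2 h4 P hV hδ0 hδ2 n (α := α) hR1
    rw [← hR, ← hM, ← hD2] at hmean
    have herr : C * (R ^ (-(1/4) : ℝ) * δ ^ (-(k:ℝ))) + D2 * δ ≤ 1/4 + 1/8 := by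
      have h1 : R ^ (-(1/4) : ℝ) ≤ X ^ (-(1/16):ℝ) := by
        calc R ^ (-(1/4) : ℝ) ≤ (X ^ (1/4:ℝ)) ^ (-(1/4) : ℝ) := Real.rpow_le_rpow_of_nonpos (by positivity) hRX (by norm_num)
          _ = _ := by rw [← Real.rpow_mul hX0.le]; norm_num
      have h2 : δ ^ (-(k:ℝ)) ≤ X ^ (1/32:ℝ) := by
        rw [hδ, ← Real.rpow_mul hX0.le]
        apply Real.rpow_le_rpow_of_exponent_le hX1
        linarith
      have h3 : R ^ (-(1/4) : ℝ) * δ ^ (-(k:ℝ)) ≤ X ^ (-(1/32):ℝ) := by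
        calc R ^ (-(1/4) : ℝ) * δ ^ (-(k:ℝ)) ≤ X ^ (-(1/16):ℝ) * X ^ (1/32:ℝ) :=
              mul_le_mul h1 h2 (by positivity) (by positivity)
          _ = _ := by rw [← Real.rpow_add hX0]; norm_num
      have h5 := mul_le_mul_of_nonneg_left h3 hC.le
      linarith
    have hlow : p * W < sg k * ∫ x, Fk k P (R + x) ∂(mu δ (2 * (2 * k))) := by
      have := (abs_le.mp (hmean.trans herr)).1
      linarith
    obtain ⟨x, hx, hxv⟩ := exists_of_mean (by omega) P hδ0 _ hR1 hlow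
    refine ⟨R + x, by linarith [hx.1], ?_, hxv⟩
    have h2 : x ≤ 2 * (((2 * k : ℕ):ℝ) * δ) := by
      have := hx.2
      push_cast at this ⊢
      linarith
    rw [abs_le, hR]
    constructor <;> linarith [hx.1]
  choose! y hy using hy
  set f : ℕ → ℕ := fun n => ⌊y n⌋₊ with hf
  have hfG : ∀ n ∈ G, |α * n - f n| ≤ 2 := by
    intro n hn
    obtain ⟨y1, y2, y3⟩ := hy n hn
    have h1 : (⌊y n⌋₊ : ℝ) ≤ y n := Nat.floor_le (by linarith)
    have h2 := Nat.lt_floor_add_one (y n)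
    rw [abs_le] at y2 ⊢
    simp only [hf]
    constructor <;> linarith [y2.1, y2.2]
  have hcard := card_image_ge hα0 hα1 hfG
  set J : Finset ℕ := (Finset.range (⌊X⌋₊ + 1)).filter (fun j : ℕ => 1 ≤ j ∧ ∃ y : ℝ, (j:ℝ) ≤ y ∧ y < j + 1 ∧
          p * K ^ a * (Real.log K) ^ γ ≤ sg k * Fk k P y) with hJ
  have hsub : G.image f ⊆ J := by
    intro j hj
    rw [Finset.mem_image] at hj
    obtain ⟨n, hn, rfl⟩ := hj
    obtain ⟨y1, y2, y3⟩ := hy n hn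
    rw [hJ, Finset.mem_filter, Finset.mem_range]
    have hfl : (⌊y n⌋₊ : ℝ) ≤ y n := Nat.floor_le (by linarith)
    have hyX : y n ≤ X := by
      rw [hG, Finset.mem_filter, Finset.mem_range] at hn
      have h1 : n ≤ ⌊lam0 * (S.card + 1) * T⌋₊ := by omega
      have h2 : (n:ℝ) ≤ lam0 * (S.card + 1) * T := by
        calc (n:ℝ) ≤ (⌊lam0 * (S.card + 1) * T⌋₊ : ℝ) := by exact_mod_cast h1
          _ ≤ _ := Nat.floor_le (by positivity)
      have h3 : α * n ≤ X/2 := by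
        calc α * n ≤ α * (lam0 * (S.card + 1) * T) := mul_le_mul_of_nonneg_left h2 hα0.le
          _ ≤ α * (lam0 * (2 * K) * T) := by
              have : (S.card : ℝ) + 1 ≤ 2 * K := by linarith
              gcongr
          _ = X/2 := by rw [hT]; field_simp; norm_num
      have := (abs_le.mp y2).2
      linarith
    refine ⟨?_, ?_, y n, hfl, Nat.lt_floor_add_one (y n), ?_⟩
    · have : ⌊y n⌋₊ ≤ ⌊X⌋₊ := Nat.floor_mono hyX
      simp only [hf]; omega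
    · simp only [hf]
      exact Nat.le_floor (by push_cast; exact y1)
    · rw [mul_assoc, ← hW]; exact y3
  have hcard2 : ((G.image f).card : ℝ) ≤ (J.card : ℝ) := by exact_mod_cast Finset.card_le_card hsub
  have h1 : T * Real.exp (-(lam0 * (S.card + 1))) ≤ (5/α) * (J.card : ℝ) := by
    refine hcnt.trans (hcard.trans ?_)
    exact mul_le_mul_of_nonneg_left hcard2 (by positivity)
  have h2 : (α/5) * (T * Real.exp (-(lam0 * (S.card + 1)))) ≤ (J.card : ℝ) := by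
    have := mul_le_mul_of_nonneg_left h1 (show 0 ≤ α/5 by positivity)
    have e : (α/5) * ((5/α) * (J.card : ℝ)) = (J.card : ℝ) := by field_simp
    rw [e] at this
    exact this
  refine le_trans ?_ h2
  have e1 : (α/5) * (T * Real.exp (-(lam0 * (S.card + 1)))) = X * (Real.exp (-(lam0 * (S.card + 1))) / (20 * lam0 * K)) := by
    rw [hT]; field_simp; norm_num
  rw [e1]
  apply mul_le_mul_of_nonneg_left _ hX0.le
  rw [le_div_iff₀ (by positivity)]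
  have e2 : 20 * lam0 * K ≤ Real.exp ((20 * lam0 + 1) * K) := by
    have f1 := Real.add_one_le_exp (20 * lam0)
    have f2 := Real.add_one_le_exp K
    calc 20 * lam0 * K ≤ Real.exp (20 * lam0) * Real.exp K := by
          apply mul_le_mul (by linarith) (by linarith) hK0.le (Real.exp_pos _).le
      _ = Real.exp (20 * lam0 + K) := by rw [Real.exp_add]
      _ ≤ _ := by
          apply Real.exp_le_exp.mpr
          nlinarith
  calc Real.exp (-((22 * lam0 + 1) * K)) * (20 * lam0 * K) ≤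
      Real.exp (-((22 * lam0 + 1) * K)) * Real.exp ((20 * lam0 + 1) * K) :=
        mul_le_mul_of_nonneg_left e2 (Real.exp_pos _).le
    _ = Real.exp (-(2 * lam0 * K)) := by rw [← Real.exp_add]; congr 1; ring
    _ ≤ _ := by
        apply Real.exp_le_exp.mpr
        have : lam0 * (S.card + 1) ≤ lam0 * (2 * K) := mul_le_mul_of_nonneg_left (by linarith) hlam00.le
        linarith

end Pool.Agent.H452R2.PO
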