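import Mathlib
import Pool.Agent.H452R2.PO.P5

open MeasureTheory Filter Topology Set
open Pool.Agent.H383.PZ

namespace Pool.Agent.H452R2.PO

open Classical in
/-- localised omega result from the count of large values -/
theorem omega_of_tail {k : ℕ} (hk2 : 2 ≤ k) {Δ : ℝ → ℝ} {a γ V₀ : ℝ} (ha : 0 < a) (hγ : 0 ≤ γ)
    (h : ∀ ε : ℝ, 0 < ε → ∃ c₀ : ℝ, 0 < c₀ ∧ ∃ N₀ : ℕ, ∀ N : ℕ, N₀ ≤ N → ∀ V : ℝ, V₀ ≤ V →
      V ≤ c₀ * (Real.log N) ^ a * (Real.log (Real.log N)) ^ γ →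
      (N:ℝ) ^ (1 - ε) ≤ (((Finset.Icc 1 N).filter (fun j : ℕ => ∃ x : ℝ, (j:ℝ)^k ≤ x ∧ x < (j+1)^k ∧
          V * x ^ a ≤ Δ x)).card : ℝ)) :
    ∀ ε : ℝ, 0 < ε → ∃ c : ℝ, 0 < c ∧ ∃ X₀ : ℝ, ∀ X : ℝ, X₀ ≤ X → ∃ x : ℝ, X ^ (1 - ε) ≤ x ∧ x ≤ X ∧
      c * (x * Real.log x) ^ a * (Real.log (Real.log x)) ^ γ ≤ Δ x := by
  intro ε hε
  have hk' : (2:ℝ) ≤ k := by exact_mod_cast hk2
  have hk0 : (0:ℝ) < k := by linarith
  set ε' : ℝ := min (ε/2) (1/4) with hε'
  have hε'0 : 0 < ε' := by positivity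
  have hε'1 : ε' ≤ ε/2 := min_le_left _ _
  have hε'2 : ε' ≤ 1/4 := min_le_right _ _
  obtain ⟨c₀, hc₀, N₀, h⟩ := h ε' hε'0
  have hlog := Real.tendsto_log_atTop
  have hll : Tendsto (fun T : ℝ => Real.log (Real.log T)) atTop atTop := hlog.comp hlog
  -- V large
  have v1 : ∀ᶠ N : ℝ in atTop, V₀ ≤ c₀ * (Real.log N) ^ a * (Real.log (Real.log N)) ^ γ := by
    have h1 : Tendsto (fun N : ℝ => c₀ * (Real.log N) ^ a) atTop atTop :=
      ((tendsto_rpow_atTop ha).comp hlog).const_mul_atTop hc₀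
    filter_upwards [h1.eventually_ge_atTop V₀, h1.eventually_ge_atTop 0, hll.eventually_ge_atTop 1] with N h2 h2' h3
    have h4 : 1 ≤ (Real.log (Real.log N)) ^ γ := Real.one_le_rpow h3 hγ
    nlinarith
  obtain ⟨N1, hN1⟩ := eventually_atTop.mp (v1.and (hlog.eventually_ge_atTop 1))
  have hZt : Tendsto (fun X : ℝ => X ^ (1/(k:ℝ))) atTop atTop := tendsto_rpow_atTop (by positivity)
  have e1 := hZt.eventually_ge_atTop (max 4 (2 * max (N₀:ℝ) N1))
  have e2 : ∀ᶠ X : ℝ in atTop, 2 * (k:ℝ) * Real.log 2 ≤ Real.log X := hlog.eventually_ge_atTop _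
  have e3 : ∀ᶠ X : ℝ in atTop, 2 * (k:ℝ) ≤ (Real.log X) ^ (1/2:ℝ) :=
    ((tendsto_rpow_atTop (by norm_num : (0:ℝ) < 1/2)).comp hlog).eventually_ge_atTop _
  have e4 : ∀ᶠ X : ℝ in atTop, (2:ℝ) ^ (k * (1 - ε')) ≤ X ^ ε' := (tendsto_rpow_atTop hε'0).eventually_ge_atTop _
  have e5 : ∀ᶠ X : ℝ in atTop, Real.exp 1 ≤ X ^ (1/2:ℝ) :=
    (tendsto_rpow_atTop (by norm_num : (0:ℝ) < 1/2)).eventually_ge_atTop _
  obtain ⟨X₀, hX₀⟩ := eventually_atTop.mp ((((e1.and e2).and e3).and e4).and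
    (((eventually_ge_atTop 1).and (hlog.eventually_ge_atTop 1)).and e5))
  refine ⟨c₀ * (1/(2 * k)) ^ a * (1/2) ^ γ, by positivity, X₀, ?_⟩
  intro X hX
  obtain ⟨⟨⟨⟨x1, x2⟩, x3⟩, x4⟩, ⟨x5, x6⟩, x7⟩ := hX₀ X hX
  have hX0 : 0 < X := by linarith
  set Z : ℝ := X ^ (1/(k:ℝ)) with hZ
  have hZk : Z ^ k = X := by
    rw [hZ, ← Real.rpow_natCast, ← Real.rpow_mul hX0.le]
    rw [one_div_mul_cancel hk0.ne', Real.rpow_one]
  have hZ4 : 4 ≤ Z := (le_max_left _ _).trans x1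
  have hZN : 2 * max (N₀:ℝ) N1 ≤ Z := (le_max_right _ _).trans x1
  set N : ℕ := ⌊Z⌋₊ - 1 with hN
  have hfl : 4 ≤ ⌊Z⌋₊ := Nat.le_floor (by exact_mod_cast hZ4)
  have hNZ : (N:ℝ) + 1 ≤ Z := by
    have h1 : (⌊Z⌋₊ : ℝ) ≤ Z := Nat.floor_le (by linarith)
    have h2 : N + 1 = ⌊Z⌋₊ := by omega
    have h3 : (N:ℝ) + 1 = (⌊Z⌋₊ : ℝ) := by exact_mod_cast h2
    linarith
  have hNZ2 : Z / 2 ≤ N := by
    have h1 := Nat.lt_floor_add_one Z
    have h2 : N + 1 = ⌊Z⌋₊ := by omega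
    have h3 : (N:ℝ) + 1 = (⌊Z⌋₊ : ℝ) := by exact_mod_cast h2
    linarith
  have hN0 : (0:ℝ) < N := by linarith
  have hNN₀ : N₀ ≤ N := by
    have : (N₀:ℝ) ≤ N := by
      have := le_max_left (N₀:ℝ) N1
      linarith
    exact_mod_cast this
  have hNN1 : N1 ≤ (N:ℝ) := by
    have := le_max_right (N₀:ℝ) N1
    linarith
  obtain ⟨n1, n2⟩ := hN1 N hNN1
  have hlX : 0 < Real.log X := by linarith
  have hlN : (1/(2 * k)) * Real.log X ≤ Real.log N := by
    have h1 : Real.log (Z/2) ≤ Real.log N := Real.log_le_log (by positivity) hNZ2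
    rw [Real.log_div (by positivity) (by norm_num), hZ, Real.log_rpow hX0] at h1
    have h2 : Real.log 2 ≤ (1/(2 * k)) * Real.log X := by
      have := mul_le_mul_of_nonneg_left x2 (show (0:ℝ) ≤ 1/(2 * k) by positivity)
      have h3 : 1/(2 * (k:ℝ)) * (2 * k * Real.log 2) = Real.log 2 := by field_simp
      linarith
    have h4 : 1/(k:ℝ) * Real.log X = 2 * ((1/(2 * k)) * Real.log X) := by field_simp
    linarith
  have hlN2 : (Real.log X) ^ (1/2:ℝ) ≤ Real.log N := by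
    refine le_trans ?_ hlN
    have h1 : (Real.log X) ^ (1/2:ℝ) * (Real.log X) ^ (1/2:ℝ) = Real.log X := by
      rw [← Real.rpow_add hlX]; norm_num
    have h2 : 0 < (Real.log X) ^ (1/2:ℝ) := by positivity
    rw [div_mul_eq_mul_div, one_mul, le_div_iff₀ (by positivity)]
    nlinarith
  have hllN : (1/2) * Real.log (Real.log X) ≤ Real.log (Real.log N) := by
    have := Real.log_le_log (by positivity) hlN2
    rwa [Real.log_rpow hlX] at this
  set V : ℝ := c₀ * (Real.log N) ^ a * (Real.log (Real.log N)) ^ γ with hV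
  have hcard := h N hNN₀ V n1 le_rfl
  set B : Finset ℕ := (Finset.Icc 1 N).filter (fun j : ℕ => ∃ x : ℝ, (j:ℝ)^k ≤ x ∧ x < (j+1)^k ∧
          V * x ^ a ≤ Δ x) with hB
  have hne : B.Nonempty := by
    rw [← Finset.card_pos]
    have : (0:ℝ) < (B.card : ℝ) := lt_of_lt_of_le (by positivity) hcard
    exact_mod_cast this
  obtain ⟨j, hj, hjmax⟩ := Finset.exists_max_image B id hne
  have hBj : B ⊆ Finset.Icc 1 j := by
    intro i hi
    have h1 := hjmax i hi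
    rw [hB, Finset.mem_filter, Finset.mem_Icc] at hi
    rw [Finset.mem_Icc]
    exact ⟨hi.1.1, h1⟩
  have hjN : (N:ℝ) ^ (1 - ε') ≤ j := by
    refine hcard.trans ?_
    have := Finset.card_le_card hBj
    rw [Nat.card_Icc, Nat.add_sub_cancel] at this
    exact_mod_cast this
  rw [hB, Finset.mem_filter, Finset.mem_Icc] at hj
  obtain ⟨⟨hj1, hj2⟩, x, hx1, hx2, hx3⟩ := hj
  have hxX : x ≤ X := by
    refine hx2.le.trans ?_
    rw [← hZk]
    apply pow_le_pow_left₀ (by positivity)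
    have : (j:ℝ) ≤ N := by exact_mod_cast hj2
    linarith
  have hxl' : X ^ (1 - 2 * ε') ≤ x := by
    refine le_trans ?_ hx1
    calc X ^ (1 - 2 * ε') = X ^ (1 - ε') * X ^ (-ε') := by rw [← Real.rpow_add hX0]; congr 1; ring
      _ ≤ X ^ (1 - ε') * (2:ℝ) ^ (-(k * (1 - ε'))) := by
          apply mul_le_mul_of_nonneg_left _ (by positivity)
          rw [Real.rpow_neg hX0.le, Real.rpow_neg (by norm_num)]
          exact inv_anti₀ (by positivity) x4
      _ = (Z/2) ^ (k * (1 - ε')) := by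
          rw [Real.div_rpow (by positivity) (by norm_num), Real.rpow_neg (by norm_num), div_eq_mul_inv]
          congr 1
          rw [hZ, ← Real.rpow_mul hX0.le]
          congr 1
          field_simp
      _ ≤ (N:ℝ) ^ (k * (1 - ε')) := by
          apply Real.rpow_le_rpow (by positivity) hNZ2
          have : 0 ≤ 1 - ε' := by linarith
          positivity
      _ = ((N:ℝ) ^ (1 - ε')) ^ k := by
          rw [← Real.rpow_natCast, ← Real.rpow_mul hN0.le]; congr 1; ring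
      _ ≤ (j:ℝ)^k := pow_le_pow_left₀ (by positivity) hjN k
  have hxl : X ^ (1 - ε) ≤ x := by
    refine le_trans ?_ hxl'
    apply Real.rpow_le_rpow_of_exponent_le x5
    linarith
  refine ⟨x, hxl, hxX, ?_⟩
  have hj1' : (1:ℝ) ≤ j := by exact_mod_cast hj1
  have hx1' : 1 ≤ x := le_trans (one_le_pow₀ hj1') hx1
  have hx0 : 0 < x := by linarith
  refine le_trans ?_ hx3
  have hxe : Real.exp 1 ≤ x := by
    refine x7.trans (le_trans ?_ hxl')
    apply Real.rpow_le_rpow_of_exponent_le x5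
    linarith
  have hlx1 : 1 ≤ Real.log x := by
    have := Real.log_le_log (Real.exp_pos 1) hxe
    rwa [Real.log_exp] at this
  have hlx : 0 ≤ Real.log x := by linarith
  have hllx0 : 0 ≤ Real.log (Real.log x) := Real.log_nonneg hlx1
  have hlxX : Real.log x ≤ Real.log X := Real.log_le_log hx0 hxX
  have hllx : (1/2) * Real.log (Real.log x) ≤ Real.log (Real.log N) := by
    have := Real.log_le_log (by linarith) hlxX
    linarith
  have g1 : (Real.log (Real.log x)) ^ γ * (1/2) ^ γ ≤ (Real.log (Real.log N)) ^ γ := by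
    rw [← Real.mul_rpow hllx0 (by norm_num)]
    apply Real.rpow_le_rpow (by positivity) _ hγ
    linarith
  have g2 : (Real.log x) ^ a * (1/(2 * k)) ^ a ≤ (Real.log N) ^ a := by
    rw [← Real.mul_rpow hlx (by positivity)]
    apply Real.rpow_le_rpow (by positivity) _ ha.le
    have h1 := mul_le_mul_of_nonneg_left hlxX (show (0:ℝ) ≤ 1/(2 * k) by positivity)
    linarith
  have hcal : c₀ * (1 / (2 * (k:ℝ))) ^ a * (1/2) ^ γ * (x * Real.log x) ^ a * (Real.log (Real.log x)) ^ γ =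
      c₀ * ((Real.log x) ^ a * (1/(2 * k)) ^ a) * ((Real.log (Real.log x)) ^ γ * (1/2) ^ γ) * x ^ a := by
    rw [Real.mul_rpow hx0.le hlx]; ring
  rw [hcal, hV]
  apply mul_le_mul_of_nonneg_right _ (by positivity)
  apply mul_le_mul _ g1 (by positivity) (by positivity)
  exact mul_le_mul_of_nonneg_left g2 hc₀.le

end Pool.Agent.H452R2.PO
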