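import Mathlib
import Pool.Agent.H452R2.PO.Defs

open Pool.Agent.H383.PZ

namespace Pool.Agent.H452R2.PO

/- Task MERT (generalise Pool/Agent/H452R2/Om/Mert.lean: `mert_all`) -/
theorem mert_k (z : ℝ) (hz : 0 < z) (A : ℕ) (hA : 2 ≤ A) : ∃ c : ℝ, 0 < c ∧ ∀ y : ℕ, 3 ≤ y →
    c * (Real.log y) ^ z ≤ ∏ p ∈ OQ A y, (1 + z / p) := sorry

/- Task COUNT (generalise Pool/Agent/H452R2/Om/Count.lean: replace `zz` by `z`, the primes `p ≥ 3` by `p ≥ A` with `z ≤ A`,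
   the exponent 1/16 by 1/(16 z)) -/
theorem count_k (z : ℝ) (hz : 1 ≤ z) (A : ℕ) (hA : z ≤ A) (hA3 : 3 ≤ A)
    (hM : ∃ c : ℝ, 0 < c ∧ ∀ y : ℕ, 3 ≤ y → c * (Real.log y) ^ z ≤ ∏ p ∈ OQ A y, (1 + z / p)) :
    ∃ c Y0 : ℝ, 0 < c ∧ 3 ≤ Y0 ∧ ∀ Y : ℝ, Y0 ≤ Y → ∃ 𝓢 : Finset (Finset ℕ),
      (∀ S ∈ 𝓢, (∀ p ∈ S, p.Prime) ∧
        ((∏ p ∈ S, p : ℕ) : ℝ) ≤ 2 * Y * z ^ S.card ∧ ((∏ p ∈ S, p : ℕ) : ℝ) ≤ Y ^ 2) ∧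
      c * Y * (Real.log Y) ^ (z - 1) ≤ (𝓢.card : ℝ) := sorry

/- Task SETS (generalise Pool/Agent/H452R2/Om/Extract.lean and `dv_prod` of Om/O7.lean; `dk k (∏ p ∈ S, p) = k ^ S.card` for a
   finite set `S` of primes; with `m ≤ 2 Y z^S.card`, `z = zw k`:
   `dk k m * m ^ (-(k+1)/(2k)) ≥ k ^ S.card * (2 Y z ^ S.card) ^ (-(k+1)/(2k)) = (2Y) ^ (-(k+1)/(2k))`) -/
theorem sets_k (k : ℕ) (hk : 2 ≤ k)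
    (hC : ∃ c Y0 : ℝ, 0 < c ∧ 3 ≤ Y0 ∧ ∀ Y : ℝ, Y0 ≤ Y → ∃ 𝓢 : Finset (Finset ℕ),
      (∀ S ∈ 𝓢, (∀ p ∈ S, p.Prime) ∧
        ((∏ p ∈ S, p : ℕ) : ℝ) ≤ 2 * Y * (zw k) ^ S.card ∧ ((∏ p ∈ S, p : ℕ) : ℝ) ≤ Y ^ 2) ∧
      c * Y * (Real.log Y) ^ (zw k - 1) ≤ (𝓢.card : ℝ)) :
    ∃ c K0 : ℝ, 0 < c ∧ ∀ K : ℝ, K0 ≤ K → ∃ 𝓜 : Finset ℕ, (𝓜.card : ℝ) ≤ K ∧
      (∀ m ∈ 𝓜, 1 ≤ m ∧ (m:ℝ) ≤ K ^ 3) ∧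
      c * K ^ (((k:ℝ) - 1) / (2 * k)) * (Real.log K) ^ ((((k:ℝ) + 1) / (2 * k)) * (zw k - 1)) ≤
        ∑ m ∈ 𝓜, dk k m * (m : ℝ) ^ (-(((k:ℝ) + 1) / (2 * k)) : ℝ) := sorry

/- Task MSQ (mean square of a trigonometric sum with separated small frequencies, elementary: expand the square,
   `2 cos a cos b = cos (a-b) + cos (a+b)`, geometric sums `|∑_{n<N} cos (2π n θ + ψ)| ≤ 1/(2 |θ|)·const` for `0 < |θ| ≤ 1/2`) -/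
theorem msq (I : Finset ℕ) (b x : ℕ → ℝ) (φ g : ℝ) (hg : 0 < g) (hb : ∀ m, 0 ≤ b m)
    (hx : ∀ m ∈ I, g ≤ x m ∧ x m ≤ 1/4) (hsep : ∀ m ∈ I, ∀ m' ∈ I, m ≠ m' → g ≤ |x m - x m'|) (N : ℕ) :
    ∑ n ∈ Finset.range N, (∑ m ∈ I, b m * Real.cos (2 * Real.pi * (n * x m) - φ)) ^ 2 ≤
      (∑ m ∈ I, b m ^ 2) * N + (∑ m ∈ I, b m) ^ 2 * (2 / g) := sorry

/- Task DK (sum of squares) : `dk k m ^ 2 ≤ dk (k^2) m` (e.g. Cauchy-Schwarz/induction: `dk a m * dk b m ≤ dk (a*b) m`) or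
   `dk k m ≤ C_ε m^ε`; see `summable_dk` in Pool/Agent/H383/PZ/L.lean -/
theorem dk_sq_summable (k : ℕ) {σ : ℝ} (hσ : 1 < σ) : Summable (fun m : ℕ => (dk k m) ^ 2 * (m : ℝ) ^ (-σ)) := sorry

end Pool.Agent.H452R2.PO
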